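import Pool.Agent.Lib.MaximalErgodic
import Pool.Agent.Lib.ErgodicAverages

set_option autoImplicit false

/-!
# PolyConv: Birkhoff's theorem for bounded functions, and a version with moving functions

PROOF of `birkhoff_real` (limit function `L`, with its integral).  Two possible routes.
(A) Mean ergodic theorem (`ContinuousLinearMap.tendsto_birkhoffAverage_orthogonalProjection` in `L²`,
compare `Pool.Agent.FC9311.Erg`, theorem `mean_ergodic`): `A_n f → P f` in `L²`, `P f` invariant a.e.
`f - A_n f = n⁻¹ ∑_{i < n} (f - f ∘ T^i)` is a sum of coboundaries `h - h ∘ T` of bounded functions, whose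
averages tend to `0` everywhere.  `closure_L1` (weights `1`) with `phi = (f - A_n f) + P f`,
`∫ |f - phi| = ∫ |A_n f - P f| → 0`.
(B) Directly from `maximal_integral`: for rational `a < b` the set
`E = {liminf A_n f < a, b < limsup A_n f}` satisfies `T⁻¹ E = E`, and the maximal ergodic theorem for the
restriction of `mu` to `E` (which `T` preserves) applied to `f - b` and `a - f` gives
`b mu(E) ≤ ∫_E f ≤ a mu(E)`, so `mu(E) = 0`; hence the limit exists a.e.
In both cases `∫ L = ∫ f` by dominated convergence, since `∫ A_n f = ∫ f`.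

PROOF of `maker`.  Real and imaginary parts do not need to be separated: let `gl x` be the limit of
`g n x` (`0` where there is none; measurable up to a null set, `exists_measurable_...`, e.g.
`limUnder` or `measurable_limit_of_tendsto_metrizable_ae`), `R_J x = sup_{n ≥ J} ‖g n x - gl x‖ ≤ 2 B`
(for a.e. `x` it tends to `0` as `J → ∞`).  For `n ≥ J`
`‖(len n)⁻¹ ∑_{i < len n} g n (tau^i x) - (len n)⁻¹ ∑_{i < len n} gl (tau^i x)‖ ≤
 (len n)⁻¹ ∑_{i < len n} R_J (tau^i x)`.
Birkhoff for `gl` (complex valued: `birkhoff`), so it is enough that for a.e. `x` the right side, for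
large `J`, is eventually small: its limit as `n → ∞` is `L_J x`, the Birkhoff limit of `R_J`, `≥ 0`, with
`∫ L_J = ∫ R_J → 0` (dominated convergence), and `L_{J+1} ≤ L_J` a.e.; so `inf_J L_J = 0` a.e. (or choose
`J_i` with `∫ R_{J_i} ≤ 2^{-i}`, then `∑_i L_{J_i} < ∞` a.e. and `L_{J_i} → 0` a.e.).  So for a.e. `x` the
left side tends to `0`, and the averages of `g n` have the same limit as those of `gl`.
-/

open MeasureTheory Filter Topology Finset

namespace Pool.PolyConv

variable {X : Type*} [MeasurableSpace X] {mu : Measure X} [IsProbabilityMeasure mu]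

open Pool.Lib.Erg

omit [IsProbabilityMeasure mu] in
lemma ae_orbit (tau : X → X) (htau : MeasurePreserving tau mu mu) (P : X → Prop)
    (h : ∀ᵐ x ∂mu, P x) : ∀ᵐ x ∂mu, ∀ k : ℕ, P (tau^[k] x) := by
  rw [ae_all_iff]
  intro k
  exact (htau.iterate k).quasiMeasurePreserving.ae h

lemma avg_add (a b : ℕ → ℂ) (N : ℕ) : avg (fun n => a n + b n) N = avg a N + avg b N := by
  unfold avg
  rw [Finset.sum_add_distrib, mul_add]

lemma avg_smul (c : ℂ) (a : ℕ → ℂ) (N : ℕ) : avg (fun n => c * a n) N = c * avg a N := by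
  unfold avg
  rw [← Finset.mul_sum]; ring

lemma inv_tendsto_zero : Tendsto (fun N : ℕ => ((N : ℝ))⁻¹) atTop (𝓝 0) :=
  tendsto_inv_atTop_zero.comp tendsto_natCast_atTop_atTop

lemma coboundary_one (a : ℕ → ℂ) (C : ℝ) (ha : ∀ n, ‖a n‖ ≤ C) :
    Tendsto (avg fun n => a n - a (n + 1)) atTop (𝓝 0) := by
  have h0 : Tendsto (fun N : ℕ => ((N : ℝ))⁻¹ * (2 * C)) atTop (𝓝 0) := by
    have := inv_tendsto_zero.mul_const (2 * C)
    rwa [zero_mul] at this
  apply squeeze_zero_norm _ h0
  intro N
  unfold avg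
  rw [Finset.sum_range_sub', norm_mul, norm_inv, Complex.norm_natCast]
  apply mul_le_mul_of_nonneg_left _ (by positivity)
  calc ‖a 0 - a N‖ ≤ ‖a 0‖ + ‖a N‖ := norm_sub_le _ _
    _ ≤ 2 * C := by linarith [ha 0, ha N]

lemma coboundary_avg (a : ℕ → ℂ) (C : ℝ) (ha : ∀ n, ‖a n‖ ≤ C) (i : ℕ) :
    Tendsto (avg fun n => a n - a (n + i)) atTop (𝓝 0) := by
  induction i with
  | zero =>
    have : (avg fun n => a n - a (n + 0)) = fun _ => 0 := by
      funext N; simp [avg]
    rw [this]; exact tendsto_const_nhds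
  | succ i ih =>
    have h1 := coboundary_one (fun n => a (n + i)) C (fun n => ha _)
    have h2 := ih.add h1
    rw [add_zero] at h2
    refine h2.congr fun N => ?_
    rw [← avg_add]
    congr 1
    funext n
    have : n + 1 + i = n + (i + 1) := by ring
    rw [this]; ring

/-- the pointwise ergodic theorem for bounded functions -/
theorem birkhoff_avg (tau : X → X) (htau : MeasurePreserving tau mu mu) (f : X → ℂ)
    (hf : AEStronglyMeasurable f mu) (B : ℝ) (hB : ∀ᵐ x ∂mu, ‖f x‖ ≤ B) :
    ∀ᵐ x ∂mu, ∃ L, Tendsto (avg fun n => f (tau^[n] x)) atTop (𝓝 L) := by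
  have hf2 : MemLp f 2 mu := MemLp.of_bound hf B hB
  set U : Lp ℂ 2 mu →L[ℂ] Lp ℂ 2 mu :=
    (Lp.compMeasurePreservingₗᵢ ℂ tau htau).toContinuousLinearMap with hU
  have hUn : ‖U‖ ≤ 1 := LinearIsometry.norm_toContinuousLinearMap_le _
  set F : Lp ℂ 2 mu := hf2.toLp f with hF
  have hlim := U.tendsto_birkhoffAverage_orthogonalProjection hUn F
  set K := (U.eqLocus (1 : Lp ℂ 2 mu →L[ℂ] Lp ℂ 2 mu)) with hK
  set G : Lp ℂ 2 mu := ((K.orthogonalProjectionOnto F : K) : Lp ℂ 2 mu) with hG
  have hGinv : U G = G := by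
    have : G ∈ K := (K.orthogonalProjectionOnto F).2
    rw [hK] at this
    exact this
  have hGcomp : (G : X → ℂ) ∘ tau =ᵐ[mu] G := by
    have h1 := Lp.coeFn_compMeasurePreserving G htau
    have h2 : Lp.compMeasurePreserving tau htau G = G := hGinv
    rw [h2] at h1
    exact h1.symm
  have hiter : ∀ k : ℕ, U^[k] F =
      (hf2.comp_measurePreserving (htau.iterate k)).toLp (f ∘ tau^[k]) := by
    intro k
    have : (U : Lp ℂ 2 mu → Lp ℂ 2 mu) =
      (Lp.compMeasurePreserving (E := ℂ) (p := 2) tau htau) := rfl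
    rw [this, Lp.compMeasurePreserving_iterate]
    rfl
  have hbirk : ∀ n : ℕ, (birkhoffAverage ℂ U _root_.id n F : Lp ℂ 2 mu) =ᵐ[mu]
      fun x => avg (fun k => f (tau^[k] x)) n := by
    intro n
    simp only [birkhoffAverage, birkhoffSum, _root_.id]
    have h1 : (((∑ k ∈ Finset.range n, U^[k] F : Lp ℂ 2 mu)) : X → ℂ) =ᵐ[mu]
        fun x => ∑ k ∈ Finset.range n, f (tau^[k] x) := by
      induction n with
      | zero =>
        simp only [Finset.range_zero, Finset.sum_empty]
        exact Lp.coeFn_zero ℂ 2 mu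
      | succ n ih =>
        rw [Finset.sum_range_succ]
        filter_upwards [Lp.coeFn_add (∑ k ∈ Finset.range n, U^[k] F) (U^[n] F), ih,
          (hf2.comp_measurePreserving (htau.iterate n)).coeFn_toLp] with x h2 h3 h4
        rw [h2, Finset.sum_range_succ, Pi.add_apply, h3, hiter n, h4]
        rfl
    filter_upwards [h1, Lp.coeFn_smul ((n : ℂ)⁻¹) (∑ k ∈ Finset.range n, U^[k] F)] with x h2 h3
    rw [h3, Pi.smul_apply, h2]
    rfl
  -- almost every orbit is good
  have horb := ae_orbit tau htau (fun x => ‖f x‖ ≤ B ∧ G (tau x) = G x)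
    (by filter_upwards [hB, hGcomp] with x h1 h2 using ⟨h1, h2⟩)
  have key := closure_L1 (μ := mu) tau htau (fun _ _ => 1) 1
    (Eventually.of_forall fun x n => by simp) f ?_
  · filter_upwards [key] with x hx
    obtain ⟨L, hL⟩ := hx
    exact ⟨L, by simpa only [one_mul] using hL⟩
  intro ε hε
  rw [tendsto_iff_norm_sub_tendsto_zero] at hlim
  obtain ⟨n, hn1, hn2⟩ := ((hlim.eventually (gt_mem_nhds hε)).and (eventually_ge_atTop 1)).exists
  have hn0 : (n : ℂ) ≠ 0 := by
    have : n ≠ 0 := by omega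
    exact_mod_cast this
  refine ⟨fun x => (f x - avg (fun k => f (tau^[k] x)) n) + G x, ?_, ?_, ?_⟩
  · have h1 : Integrable (fun x => (birkhoffAverage ℂ U _root_.id n F - G : Lp ℂ 2 mu) x) mu :=
      (Lp.memLp (birkhoffAverage ℂ U _root_.id n F - G)).integrable (by norm_num)
    refine h1.congr ?_
    filter_upwards [Lp.coeFn_sub (birkhoffAverage ℂ U _root_.id n F) G, hbirk n] with x h2 h3
    rw [h2, Pi.sub_apply, h3]
    ring
  · have h1 : ∫ x, ‖f x - ((f x - avg (fun k => f (tau^[k] x)) n) + G x)‖ ∂mu =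
        ∫ x, ‖(birkhoffAverage ℂ U _root_.id n F - G : Lp ℂ 2 mu) x‖ ∂mu := by
      apply integral_congr_ae
      filter_upwards [Lp.coeFn_sub (birkhoffAverage ℂ U _root_.id n F) G, hbirk n] with x h2 h3
      rw [h2, Pi.sub_apply, h3]
      congr 1
      ring
    rw [h1]
    set D := (birkhoffAverage ℂ U _root_.id n F - G : Lp ℂ 2 mu) with hD
    have h2 : ∫ x, ‖D x‖ ∂mu = (eLpNorm D 1 mu).toReal := by
      rw [integral_norm_eq_lintegral_enorm (Lp.aestronglyMeasurable D), eLpNorm_one_eq_lintegral_enorm]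
    rw [h2]
    have h3 : eLpNorm D 1 mu ≤ eLpNorm D 2 mu :=
      eLpNorm_le_eLpNorm_of_exponent_le (by norm_num) (Lp.aestronglyMeasurable D)
    have h4 : (eLpNorm D 1 mu).toReal ≤ ‖D‖ := by
      rw [Lp.norm_def]
      exact ENNReal.toReal_mono (Lp.eLpNorm_ne_top D) h3
    exact h4.trans (le_of_lt hn1)
  · filter_upwards [horb] with x hx
    have hGk : ∀ k : ℕ, G (tau^[k] x) = G x := by
      intro k
      induction k with
      | zero => rfl
      | succ k ih => rw [Function.iterate_succ_apply', (hx k).2, ih]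
    refine ⟨G x, ?_⟩
    -- the coboundary part
    have hcob : Tendsto (avg fun m => f (tau^[m] x) - avg (fun k => f (tau^[k] (tau^[m] x))) n)
        atTop (𝓝 0) := by
      have h1 : ∀ m : ℕ, f (tau^[m] x) - avg (fun k => f (tau^[k] (tau^[m] x))) n =
          (n : ℂ)⁻¹ * ∑ i ∈ range n, (f (tau^[m] x) - f (tau^[m + i] x)) := by
        intro m
        unfold avg
        rw [Finset.sum_sub_distrib, mul_sub, Finset.sum_const, Finset.card_range, nsmul_eq_mul,
          inv_mul_cancel_left₀ hn0]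
        congr 2
        apply Finset.sum_congr rfl
        intro i _
        show f (tau^[i] (tau^[m] x)) = _
        rw [← Function.iterate_add_apply, add_comm]
      have h2 : Tendsto (fun N => (n : ℂ)⁻¹ * ∑ i ∈ range n,
          avg (fun m => f (tau^[m] x) - f (tau^[m + i] x)) N) atTop (𝓝 ((n : ℂ)⁻¹ * ∑ i ∈ range n, 0)) := by
        apply Tendsto.const_mul
        apply tendsto_finsetSum
        intro i _
        exact coboundary_avg (fun m => f (tau^[m] x)) B (fun m => (hx m).1) i
      rw [Finset.sum_const_zero, mul_zero] at h2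
      refine h2.congr fun N => ?_
      unfold avg
      rw [← Finset.mul_sum, Finset.sum_comm, mul_left_comm, Finset.mul_sum]
      congr 1
      apply Finset.sum_congr rfl
      intro m _
      exact (h1 m).symm
    have hc : Tendsto (fun N : ℕ => avg (fun _ => G x) N) atTop (𝓝 (G x)) := by
      apply tendsto_const_nhds.congr'
      filter_upwards [eventually_ge_atTop 1] with N hN
      have hN0 : (N : ℂ) ≠ 0 := by
        have : N ≠ 0 := by omega
        exact_mod_cast this
      simp [avg, inv_mul_cancel_left₀ hN0]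
    have := hcob.add hc
    rw [zero_add] at this
    refine this.congr fun N => ?_
    rw [← avg_add]
    congr 1
    funext m
    rw [one_mul, hGk m]

theorem birkhoff_real (tau : X → X) (htau : MeasurePreserving tau mu mu) (f : X → ℝ)
    (hf : AEMeasurable f mu) (B : ℝ) (hB : ∀ᵐ x ∂mu, |f x| ≤ B) :
    ∃ L : X → ℝ, Measurable L ∧ (∀ᵐ x ∂mu, |L x| ≤ B) ∧ ∫ x, L x ∂mu = ∫ x, f x ∂mu ∧
      ∀ᵐ x ∂mu, Tendsto (fun n : ℕ => (n : ℝ)⁻¹ * ∑ i ∈ range n, f (tau^[i] x)) atTop
        (𝓝 (L x)) := by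
  have hB0 : 0 ≤ B := by
    obtain ⟨x, hx⟩ := hB.exists
    exact (abs_nonneg _).trans hx
  have hex : ∀ᵐ x ∂mu, ∃ L : ℝ,
      Tendsto (fun n : ℕ => (n : ℝ)⁻¹ * ∑ i ∈ range n, f (tau^[i] x)) atTop (𝓝 L) := by
    have hfC : AEStronglyMeasurable (fun x => (f x : ℂ)) mu :=
      (Complex.measurable_ofReal.comp_aemeasurable hf).aestronglyMeasurable
    have h := birkhoff_avg tau htau (fun x => (f x : ℂ)) hfC B (by
      filter_upwards [hB] with x hx
      rw [Complex.norm_real]; exact hx)
    filter_upwards [h] with x hx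
    obtain ⟨L, hL⟩ := hx
    refine ⟨L.re, ?_⟩
    have := (Complex.continuous_re.tendsto L).comp hL
    refine this.congr fun N => ?_
    simp only [Function.comp_apply, avg]
    rw [← Complex.ofReal_sum, ← Complex.ofReal_natCast, ← Complex.ofReal_inv,
      ← Complex.ofReal_mul, Complex.ofReal_re]
  have hmi : ∀ i : ℕ, AEMeasurable (fun x => f (tau^[i] x)) mu := fun i =>
    hf.comp_quasiMeasurePreserving (htau.iterate i).quasiMeasurePreserving
  have hmeas : ∀ n : ℕ, AEMeasurable
      (fun x => (n : ℝ)⁻¹ * ∑ i ∈ range n, f (tau^[i] x)) mu := fun n =>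
    (Finset.aemeasurable_fun_sum _ fun i _ => hmi i).const_mul _
  obtain ⟨L, hLm, hL⟩ := measurable_limit_of_tendsto_metrizable_ae hmeas hex
  have hbd : ∀ᵐ x ∂mu, ∀ n : ℕ, |(n : ℝ)⁻¹ * ∑ i ∈ range n, f (tau^[i] x)| ≤ B := by
    filter_upwards [ae_orbit tau htau _ hB] with x hx n
    rcases Nat.eq_zero_or_pos n with h0 | hpos
    · subst h0; simpa using hB0
    · have hn : (0 : ℝ) < n := by exact_mod_cast hpos
      rw [abs_mul, abs_inv, abs_of_pos hn]
      calc (n : ℝ)⁻¹ * |∑ i ∈ range n, f (tau^[i] x)| ≤ (n : ℝ)⁻¹ * ∑ i ∈ range n, B := by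
            apply mul_le_mul_of_nonneg_left _ (by positivity)
            exact (Finset.abs_sum_le_sum_abs _ _).trans (Finset.sum_le_sum fun i _ => hx i)
        _ = B := by
            rw [Finset.sum_const, Finset.card_range, nsmul_eq_mul, inv_mul_cancel_left₀ hn.ne']
  refine ⟨L, hLm, ?_, ?_, hL⟩
  · filter_upwards [hbd, hL] with x h1 h2
    exact le_of_tendsto h2.abs (Eventually.of_forall h1)
  · have h1 := tendsto_integral_of_dominated_convergence (fun _ => B)
      (fun n => (hmeas n).aestronglyMeasurable) (integrable_const B) (fun n => by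
        filter_upwards [hbd] with x hx
        rw [Real.norm_eq_abs]; exact hx n) hL
    have h2 : Tendsto (fun n : ℕ => ∫ x, (n : ℝ)⁻¹ * ∑ i ∈ range n, f (tau^[i] x) ∂mu) atTop
        (𝓝 (∫ x, f x ∂mu)) := by
      apply tendsto_const_nhds.congr'
      filter_upwards [eventually_ge_atTop 1] with n hn
      have hn0 : (n : ℝ) ≠ 0 := by
        have : n ≠ 0 := by omega
        exact_mod_cast this
      have hfi : Integrable f mu := by
        apply Integrable.of_bound hf.aestronglyMeasurable B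
        filter_upwards [hB] with x hx
        rw [Real.norm_eq_abs]; exact hx
      rw [integral_const_mul, integral_finsetSum]
      · have h3 : ∀ i ∈ range n, ∫ x, f (tau^[i] x) ∂mu = ∫ x, f x ∂mu := by
          intro i _
          have hTi := htau.iterate i
          have h4 := hTi.map_eq
          rw [← integral_map hTi.aemeasurable (by rw [h4]; exact hf.aestronglyMeasurable), h4]
        rw [Finset.sum_congr rfl h3, Finset.sum_const, Finset.card_range, nsmul_eq_mul,
          inv_mul_cancel_left₀ hn0]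
      · intro i _
        exact (htau.iterate i).integrable_comp_of_integrable hfi
    exact tendsto_nhds_unique h1 h2

theorem birkhoff (tau : X → X) (htau : MeasurePreserving tau mu mu) (f : X → ℂ)
    (hf : AEStronglyMeasurable f mu) (B : ℝ) (hB : ∀ᵐ x ∂mu, ‖f x‖ ≤ B) :
    ∀ᵐ x ∂mu, ∃ L, Tendsto (fun n : ℕ => (n : ℂ)⁻¹ * ∑ i ∈ range n, f (tau^[i] x)) atTop
      (𝓝 L) := birkhoff_avg tau htau f hf B hB

theorem maker (tau : X → X) (htau : MeasurePreserving tau mu mu) (g : ℕ → X → ℂ)
    (hg : ∀ n, Measurable (g n)) (B : ℝ) (hB : ∀ n x, ‖g n x‖ ≤ B)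
    (hlim : ∀ᵐ x ∂mu, ∃ L, Tendsto (fun n => g n x) atTop (𝓝 L)) (len : ℕ → ℕ)
    (hlen : Tendsto len atTop atTop) :
    ∀ᵐ x ∂mu, ∃ L, Tendsto (fun n => ((len n : ℕ) : ℂ)⁻¹ *
      ∑ i ∈ range (len n), g n (tau^[i] x)) atTop (𝓝 L) := by
  have hB0 : 0 ≤ B := by
    obtain ⟨x, -⟩ := hlim.exists
    exact (norm_nonneg _).trans (hB 0 x)
  obtain ⟨gl, hglm, hgl⟩ := measurable_limit_of_tendsto_metrizable_ae
    (fun n => (hg n).aemeasurable) hlim
  have hglB : ∀ᵐ x ∂mu, ‖gl x‖ ≤ B := by
    filter_upwards [hgl] with x hx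
    exact le_of_tendsto hx.norm (Eventually.of_forall fun n => hB n x)
  -- the moduli
  set R : ℕ → X → ℝ := fun J x => min (2 * B) (⨆ n : ℕ, ‖g (J + n) x - gl x‖) with hR
  have hRm : ∀ J, Measurable (R J) := fun J =>
    measurable_const.min (Measurable.iSup fun n => ((hg _).sub hglm).norm)
  have hsup0 : ∀ J x, 0 ≤ ⨆ n : ℕ, ‖g (J + n) x - gl x‖ := fun J x =>
    Real.iSup_nonneg fun n => norm_nonneg _
  have hR0 : ∀ J x, 0 ≤ R J x := fun J x => le_min (by positivity) (hsup0 J x)
  have hR2 : ∀ J x, |R J x| ≤ 2 * B := fun J x => by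
    rw [abs_of_nonneg (hR0 J x)]; exact min_le_left _ _
  have hRge : ∀ᵐ x ∂mu, ∀ J n : ℕ, J ≤ n → ‖g n x - gl x‖ ≤ R J x := by
    filter_upwards [hglB] with x hx J n hn
    have hb : ∀ m, ‖g m x - gl x‖ ≤ 2 * B := fun m => by
      calc ‖g m x - gl x‖ ≤ ‖g m x‖ + ‖gl x‖ := norm_sub_le _ _
        _ ≤ 2 * B := by linarith [hB m x]
    apply le_min (hb n)
    obtain ⟨k, rfl⟩ := Nat.exists_eq_add_of_le hn
    exact le_ciSup (f := fun k : ℕ => ‖g (J + k) x - gl x‖)
      ⟨2 * B, by rintro y ⟨m, rfl⟩; exact hb _⟩ k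
  have hRlim : ∀ᵐ x ∂mu, Tendsto (fun J => R J x) atTop (𝓝 0) := by
    filter_upwards [hgl] with x hx
    rw [Metric.tendsto_atTop]
    intro ε hε
    rw [Metric.tendsto_atTop] at hx
    obtain ⟨N, hN⟩ := hx (ε / 2) (by positivity)
    refine ⟨N, fun J hJ => ?_⟩
    rw [Real.dist_0_eq_abs, abs_of_nonneg (hR0 J x)]
    have h1 : ⨆ n : ℕ, ‖g (J + n) x - gl x‖ ≤ ε / 2 := by
      apply ciSup_le
      intro n
      have := hN (J + n) (by omega)
      rw [dist_eq_norm] at this
      exact this.le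
    calc R J x ≤ _ := min_le_right _ _
      _ ≤ ε / 2 := h1
      _ < ε := by linarith
  choose L hLm hLb hLi hLt using fun J =>
    birkhoff_real tau htau (R J) (hRm J).aemeasurable (2 * B) (Eventually.of_forall (hR2 J))
  -- the integrals tend to zero
  have hint : Tendsto (fun J => ∫ x, L J x ∂mu) atTop (𝓝 0) := by
    have h1 := tendsto_integral_of_dominated_convergence (μ := mu) (F := R) (f := fun _ => (0 : ℝ))
      (fun _ => 2 * B) (fun n => (hRm n).aestronglyMeasurable) (integrable_const _)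
      (fun n => Eventually.of_forall fun x => by rw [Real.norm_eq_abs]; exact hR2 n x) hRlim
    rw [integral_zero] at h1
    exact h1.congr fun J => (hLi J).symm
  have hL0 : ∀ᵐ x ∂mu, ∀ J, 0 ≤ L J x := by
    rw [ae_all_iff]; intro J
    filter_upwards [hLt J] with x hx
    exact ge_of_tendsto' hx fun n => mul_nonneg (by positivity)
      (Finset.sum_nonneg fun i _ => hR0 _ _)
  have hLb' : ∀ᵐ x ∂mu, ∀ J, |L J x| ≤ 2 * B := ae_all_iff.2 hLb
  set Li : X → ℝ := fun x => ⨅ J : ℕ, L J x with hLidef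
  have hLim : Measurable Li := Measurable.iInf hLm
  have hLi0 : ∀ᵐ x ∂mu, 0 ≤ Li x := by
    filter_upwards [hL0] with x hx
    exact le_ciInf hx
  have hLile : ∀ᵐ x ∂mu, ∀ J, Li x ≤ L J x := by
    filter_upwards [hL0] with x hx J
    exact ciInf_le ⟨0, by rintro y ⟨m, rfl⟩; exact hx m⟩ J
  have hLiI : Integrable Li mu := by
    apply Integrable.of_bound hLim.aestronglyMeasurable (2 * B)
    filter_upwards [hLi0, hLile, hLb'] with x h0 h1 h2
    rw [Real.norm_eq_abs, abs_of_nonneg h0]
    exact (h1 0).trans ((le_abs_self _).trans (h2 0))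
  have hLz : ∀ᵐ x ∂mu, Li x = 0 := by
    have h1 : ∫ x, Li x ∂mu = 0 := by
      apply le_antisymm
      · apply ge_of_tendsto' hint
        intro J
        apply integral_mono_ae hLiI
        · apply Integrable.of_bound (hLm J).aestronglyMeasurable (2 * B)
          filter_upwards [hLb J] with x hx
          rw [Real.norm_eq_abs]; exact hx
        · filter_upwards [hLile] with x hx using hx J
      · exact integral_nonneg_of_ae hLi0
    have h2 := (integral_eq_zero_iff_of_nonneg_ae hLi0 hLiI).1 h1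
    filter_upwards [h2] with x hx using hx
  have hgB := birkhoff tau htau gl hglm.aestronglyMeasurable B hglB
  have horb := ae_orbit tau htau _ hRge
  filter_upwards [hgB, horb, hLz, ae_all_iff.2 hLt, hL0] with x hx1 hx2 hx3 hx4 hx5
  obtain ⟨l, hl⟩ := hx1
  refine ⟨l, ?_⟩
  have hdiff : Tendsto (fun n => ((len n : ℕ) : ℂ)⁻¹ * ∑ i ∈ range (len n), g n (tau^[i] x) -
      ((len n : ℕ) : ℂ)⁻¹ * ∑ i ∈ range (len n), gl (tau^[i] x)) atTop (𝓝 0) := by
    rw [tendsto_zero_iff_norm_tendsto_zero, Metric.tendsto_atTop]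
    intro ε hε
    have h1 : ∃ J, L J x < ε := by
      apply exists_lt_of_ciInf_lt
      show Li x < ε
      rw [hx3]; exact hε
    obtain ⟨J, hJ⟩ := h1
    have h2 := ((hx4 J).comp hlen).eventually (gt_mem_nhds hJ)
    obtain ⟨N, hN⟩ := eventually_atTop.1 h2
    refine ⟨max N J, fun n hn => ?_⟩
    have hnN : N ≤ n := (le_max_left _ _).trans hn
    have hnJ : J ≤ n := (le_max_right _ _).trans hn
    rw [Real.dist_0_eq_abs, abs_of_nonneg (norm_nonneg _), ← mul_sub, ← Finset.sum_sub_distrib,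
      norm_mul, norm_inv, Complex.norm_natCast]
    calc (len n : ℝ)⁻¹ * ‖∑ i ∈ range (len n), (g n (tau^[i] x) - gl (tau^[i] x))‖ ≤
          (len n : ℝ)⁻¹ * ∑ i ∈ range (len n), R J (tau^[i] x) := by
            apply mul_le_mul_of_nonneg_left _ (by positivity)
            exact (norm_sum_le _ _).trans (Finset.sum_le_sum fun i _ => hx2 i J n hnJ)
      _ < ε := hN n hnN
  have hsum := hdiff.add (hl.comp hlen)
  rw [zero_add] at hsum
  refine hsum.congr fun n => ?_
  simp only [Function.comp_apply]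
  ring

end Pool.PolyConv
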