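import Pool.Agent.PolyConv.Gen
import Pool.Agent.PolyConv.Birk

set_option autoImplicit false

/-!
# PolyConv: almost everywhere convergence of box averages

PROOF.  Induction over the list `l`, claim: for all bounded measurable `g` the sequence
`N ↦ op U hU (boxL l Q N) g x` converges for a.e. `x`, and `‖op U hU (boxL l Q N) g x‖ ≤ B` if
`‖g‖ ≤ B`.  Empty list: `op_boxL_nil`, constant sequence.  `j :: l`: `op_boxL_cons`, `op_lin`, and
`maker` with `tau = U j ^ Q` (measure preserving), `g n = op U hU (boxL l Q n) g` (measurable by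
`measurable_op`), `len n = n ^ (j + 1)`.  `((U j ^ Q) ^ y) x = (U j ^ Q)^[y] x`
(`Equiv.Perm.iterate_eq_pow`).
-/

open Finset MeasureTheory Filter Topology

namespace Pool.PolyConv

open Pool.PolyMax

variable {X : Type*} [MeasurableSpace X] {D : ℕ}

private lemma bx_avg {n : ℕ} {B : ℝ} (hB0 : 0 ≤ B) {a : ℕ → ℂ} (ha : ∀ i, ‖a i‖ ≤ B) :
    ‖(n : ℂ)⁻¹ * ∑ i ∈ range n, a i‖ ≤ B := by
  rcases Nat.eq_zero_or_pos n with h | h
  · subst h
    simpa using hB0
  · have hn : (0 : ℝ) < n := by exact_mod_cast h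
    rw [norm_mul, norm_inv, Complex.norm_natCast]
    have h1 : ‖∑ i ∈ range n, a i‖ ≤ n * B := by
      refine (norm_sum_le _ _).trans ?_
      refine (Finset.sum_le_sum (fun i _ => ha i)).trans ?_
      rw [Finset.sum_const, Finset.card_range, nsmul_eq_mul]
    calc (n : ℝ)⁻¹ * ‖∑ i ∈ range n, a i‖ ≤ (n : ℝ)⁻¹ * (n * B) := by gcongr
      _ = B := by field_simp

private lemma bx_list (mu : Measure X) [IsProbabilityMeasure mu] (U : Fin D → Equiv.Perm X)
    (hU : ∀ i j, Commute (U i) (U j)) (hmp : ∀ j, MeasurePreserving (U j) mu mu) (Q : ℕ)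
    (g : X → ℂ) (hg : Measurable g) (B : ℝ) (hB : ∀ x, ‖g x‖ ≤ B) (l : List (Fin D)) :
    (∀ N x, ‖op U hU (boxL l Q N) g x‖ ≤ B) ∧
      ∀ᵐ x ∂mu, ∃ L, Tendsto (fun N => op U hU (boxL l Q N) g x) atTop (𝓝 L) := by
  induction l with
  | nil =>
    simp only [op_boxL_nil]
    exact ⟨fun _ x => hB x, Filter.Eventually.of_forall fun x => ⟨g x, tendsto_const_nhds⟩⟩
  | cons j l ih =>
    have hpow : ∀ (y : ℕ) (x : X), ((U j ^ Q) ^ y) x = (⇑(U j ^ Q))^[y] x := by
      intro y x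
      rw [Equiv.Perm.iterate_eq_pow]
    have hval : ∀ N x, op U hU (boxL (j :: l) Q N) g x = ((N ^ ((j : ℕ) + 1) : ℕ) : ℂ)⁻¹ *
        ∑ y ∈ range (N ^ ((j : ℕ) + 1)), op U hU (boxL l Q N) g ((⇑(U j ^ Q))^[y] x) := by
      intro N x
      rw [op_boxL_cons, op_lin]
      simp only [hpow]
    constructor
    · intro N x
      rw [hval]
      exact bx_avg ((norm_nonneg _).trans (hB x)) (fun i => ih.1 N _)
    · simp only [hval]
      have hmp' : MeasurePreserving (⇑(U j ^ Q)) mu mu := by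
        have h := (hmp j).iterate Q
        rwa [Equiv.Perm.iterate_eq_pow] at h
      exact maker (⇑(U j ^ Q)) hmp' (fun N => op U hU (boxL l Q N) g)
        (fun N => measurable_op (fun i => (hmp i).measurable) _ hg) B ih.1 ih.2
        (fun N => N ^ ((j : ℕ) + 1)) (tendsto_pow_atTop (Nat.succ_ne_zero _))

theorem box_conv (mu : Measure X) [IsProbabilityMeasure mu] (U : Fin D → Equiv.Perm X)
    (hU : ∀ i j, Commute (U i) (U j)) (hmp : ∀ j, MeasurePreserving (U j) mu mu) (Q : ℕ)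
    (g : X → ℂ) (hg : Measurable g) (B : ℝ) (hB : ∀ x, ‖g x‖ ≤ B) :
    ∀ᵐ x ∂mu, ∃ L, Tendsto (fun N => op U hU (box D Q N) g x) atTop (𝓝 L) := by
  exact (bx_list mu U hU hmp Q g hg B hB (List.finRange D)).2

end Pool.PolyConv
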