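import Pool.Agent.PolyMax.Basic
import Pool.Agent.Lib.ErgodicAverages

set_option autoImplicit false

/-!
# PolyConv: passage from lacunary sequences to all `N`

PROOF.  `lacN h j = (h + j % h) * 2 ^ (j / h)`, `h ≥ 1`.
* `lacN h (j + 1) = (h + j % h + 1) * 2 ^ (j / h)`: if `j % h + 1 < h` then `(j+1) % h = j % h + 1` and
  `(j + 1) / h = j / h`; if `j % h + 1 = h` then `(j + 1) % h = 0`, `(j + 1) / h = j / h + 1`, and
  `h * 2 ^ (j / h + 1) = (h + (h - 1) + 1) 2 ^ (j / h)`.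
* `lacN_lac`: ratio `(h + i + 1) / (h + i) ≥ 1 + 1 / (2 h)`, `i = j % h < h`; `lacN h 0 = h ≥ 1`.
* `lacN_succ_le`: ratio `≤ 1 + 1 / h`.
* `conv_of_lac`: let `B ≥ ‖a n‖`.  For `n ≥ h` choose `j` with `lacN h j ≤ n < lacN h (j + 1)` (the
  sequence tends to infinity).  With `M = lacN h j`: `‖avg a n - avg a M‖ ≤ 2 B (n - M) / n ≤ 2 B / h`
  (`avg a n - avg a M = (n⁻¹ - M⁻¹) ∑_{i < M} a i + n⁻¹ ∑_{M ≤ i < n} a i`).  Since `avg a (lacN h j)`
  converges as `j → ∞`, `CauchyAt (avg a) (5 B / h + 1 / h)` or so holds for every `h ≥ 1`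
  (`cauchyAt_of_lim`), and `exists_lim_of_cauchyAt` gives the limit.
-/

open Finset Filter Topology

namespace Pool.PolyConv

open Pool.PolyMax

/-- A lacunary sequence with ratio at most `1 + 1 / h`. -/
def lacN (h j : ℕ) : ℕ := (h + j % h) * 2 ^ (j / h)

theorem lacN_succ (h : ℕ) (hh : 1 ≤ h) (j : ℕ) :
    lacN h (j + 1) = (h + j % h + 1) * 2 ^ (j / h) := by
  have h0 : 0 < h := hh
  have hr : j % h < h := Nat.mod_lt j h0
  have hj : j = h * (j / h) + j % h := (Nat.div_add_mod j h).symm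
  set q := j / h with hq
  set r := j % h with hrr
  unfold lacN
  rcases Nat.lt_or_ge (r + 1) h with h1 | h1
  · have e1 : (j + 1) % h = r + 1 := by
      rw [hj, add_assoc, Nat.mul_add_mod, Nat.mod_eq_of_lt h1]
    have e2 : (j + 1) / h = q := by
      rw [hj, add_assoc, Nat.mul_add_div h0, Nat.div_eq_of_lt h1, add_zero]
    rw [e1, e2, add_assoc]
  · have h2 : r + 1 = h := by omega
    have e0 : j + 1 = h * (q + 1) := by
      rw [hj, add_assoc, h2]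
      ring
    have e1 : (j + 1) % h = 0 := by rw [e0, Nat.mul_mod_right]
    have e2 : (j + 1) / h = q + 1 := by rw [e0, Nat.mul_div_cancel_left _ h0]
    rw [e1, e2, add_assoc, h2, pow_succ]
    ring

theorem lacN_lac (h : ℕ) (hh : 1 ≤ h) : Lac (1 + 1 / (2 * (h : ℝ))) (lacN h) := by
  have h0 : (0 : ℝ) < h := by exact_mod_cast hh
  refine ⟨?_, ?_, fun k => ?_⟩
  · have : 0 < 1 / (2 * (h : ℝ)) := by positivity
    linarith
  · simp [lacN, hh]
  · rw [lacN_succ h hh, lacN]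
    have hr : k % h < h := Nat.mod_lt k hh
    have hr' : ((k % h : ℕ) : ℝ) ≤ h := by exact_mod_cast hr.le
    generalize k % h = r at *
    generalize k / h = q at *
    push_cast
    have h2 : (0 : ℝ) < 2 ^ q := by positivity
    rw [← mul_assoc]
    refine mul_le_mul_of_nonneg_right ?_ h2.le
    have h3 : 1 / (2 * (h : ℝ)) * ((h : ℝ) + r) ≤ 1 := by
      rw [one_div, inv_mul_le_iff₀ (by positivity)]
      linarith
    linarith

theorem lacN_succ_le (h : ℕ) (hh : 1 ≤ h) (j : ℕ) : h * lacN h (j + 1) ≤ (h + 1) * lacN h j := by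
  rw [lacN_succ h hh, lacN, ← mul_assoc, ← mul_assoc]
  refine Nat.mul_le_mul_right _ ?_
  nlinarith [Nat.zero_le (j % h)]

theorem lacN_lt_succ (h : ℕ) (hh : 1 ≤ h) (j : ℕ) : lacN h j < lacN h (j + 1) := by
  rw [lacN_succ h hh, lacN]
  have : 0 < 2 ^ (j / h) := by positivity
  exact Nat.mul_lt_mul_of_pos_right (Nat.lt_succ_self _) this

theorem lacN_ge (h : ℕ) (hh : 1 ≤ h) (j : ℕ) : j + 1 ≤ lacN h j := by
  induction j with
  | zero => simp [lacN, hh]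
  | succ j ih => have := lacN_lt_succ h hh j; omega

/-- Every large `n` lies between two consecutive terms. -/
theorem lacN_between (h : ℕ) (hh : 1 ≤ h) (J n : ℕ) (hn : lacN h J ≤ n) :
    ∃ j, J ≤ j ∧ lacN h j ≤ n ∧ n < lacN h (j + 1) := by
  have hex : ∃ k, n < lacN h (J + k) := ⟨n, by have := lacN_ge h hh (J + n); omega⟩
  classical
  have h1 := Nat.find_spec hex
  have h2 : ∀ m, m < Nat.find hex → ¬ n < lacN h (J + m) := fun m hm => Nat.find_min hex hm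
  rcases hk : Nat.find hex with _ | k
  · rw [hk, add_zero] at h1
    omega
  · rw [hk] at h1 h2
    refine ⟨J + k, Nat.le_add_right _ _, ?_, h1⟩
    have := h2 k (Nat.lt_succ_self k)
    omega

theorem lacN_avg_close (a : ℕ → ℂ) (B : ℝ) (ha : ∀ n, ‖a n‖ ≤ B) {M N : ℕ} (hM : 0 < M)
    (hMN : M ≤ N) : ‖Pool.Lib.Erg.avg a N - Pool.Lib.Erg.avg a M‖ ≤
      2 * B * (((N : ℝ) - M) / N) := by
  have hB : 0 ≤ B := (norm_nonneg _).trans (ha 0)
  have hN0 : (0 : ℝ) < N := by exact_mod_cast hM.trans_le hMN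
  have hMr : (0 : ℝ) < M := by exact_mod_cast hM
  have hMN' : (M : ℝ) ≤ N := by exact_mod_cast hMN
  have hsum : ∑ n ∈ range N, a n = ∑ n ∈ range M, a n + ∑ n ∈ Finset.Ico M N, a n := by
    rw [Finset.sum_range_add_sum_Ico _ hMN]
  have e : Pool.Lib.Erg.avg a N - Pool.Lib.Erg.avg a M = (N : ℂ)⁻¹ * ∑ n ∈ Finset.Ico M N, a n -
      (((N : ℂ) - M) / N) * Pool.Lib.Erg.avg a M := by
    unfold Pool.Lib.Erg.avg
    rw [hsum]
    have : (N : ℂ) ≠ 0 := by exact_mod_cast hN0.ne'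
    have : (M : ℂ) ≠ 0 := by exact_mod_cast hMr.ne'
    field_simp
    ring
  rw [e]
  have b1 : ‖∑ n ∈ Finset.Ico M N, a n‖ ≤ B * ((N : ℝ) - M) := by
    calc _ ≤ ∑ n ∈ Finset.Ico M N, ‖a n‖ := norm_sum_le _ _
      _ ≤ ∑ _n ∈ Finset.Ico M N, B := Finset.sum_le_sum fun n _ => ha n
      _ = ((N - M : ℕ) : ℝ) * B := by simp
      _ = B * ((N : ℝ) - M) := by rw [Nat.cast_sub hMN]; ring
  have b2 : ‖((N : ℂ) - M) / N‖ = ((N : ℝ) - M) / N := by
    rw [norm_div, Complex.norm_natCast]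
    have h3 : (N : ℂ) - M = (((N : ℝ) - M : ℝ) : ℂ) := by push_cast; rfl
    rw [h3, Complex.norm_real, Real.norm_of_nonneg (by linarith)]
  have hx : 0 ≤ ((N : ℝ) - M) / N := div_nonneg (by linarith) hN0.le
  calc _ ≤ ‖(N : ℂ)⁻¹ * ∑ n ∈ Finset.Ico M N, a n‖ +
        ‖(((N : ℂ) - M) / N) * Pool.Lib.Erg.avg a M‖ := norm_sub_le _ _
    _ ≤ (N : ℝ)⁻¹ * (B * ((N : ℝ) - M)) + (((N : ℝ) - M) / N) * B := by
        rw [norm_mul, norm_mul, norm_inv, Complex.norm_natCast, b2]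
        apply add_le_add
        · exact mul_le_mul_of_nonneg_left b1 (by positivity)
        · exact mul_le_mul_of_nonneg_left (Pool.Lib.Erg.avg_bound a B ha M) hx
    _ = 2 * B * (((N : ℝ) - M) / N) := by
        field_simp
        ring

theorem lacN_close (a : ℕ → ℂ) (B : ℝ) (ha : ∀ n, ‖a n‖ ≤ B) (h : ℕ) (hh : 1 ≤ h) (j n : ℕ)
    (h1 : lacN h j ≤ n) (h2 : n < lacN h (j + 1)) :
    ‖Pool.Lib.Erg.avg a n - Pool.Lib.Erg.avg a (lacN h j)‖ ≤ 2 * B / h := by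
  have hB : 0 ≤ B := (norm_nonneg _).trans (ha 0)
  have h0 : (0 : ℝ) < h := by exact_mod_cast hh
  have hM : 0 < lacN h j := by have := lacN_ge h hh j; omega
  refine (lacN_avg_close a B ha hM h1).trans ?_
  have hn0 : (0 : ℝ) < n := by exact_mod_cast hM.trans_le h1
  have h3 : h * n ≤ (h + 1) * lacN h j :=
    (Nat.mul_le_mul_left h h2.le).trans (lacN_succ_le h hh j)
  have h3' : (h : ℝ) * n ≤ ((h : ℝ) + 1) * (lacN h j : ℝ) := by exact_mod_cast h3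
  have h1' : (lacN h j : ℝ) ≤ n := by exact_mod_cast h1
  have h4 : ((n : ℝ) - lacN h j) / n ≤ 1 / h := by
    rw [div_le_div_iff₀ hn0 h0]
    nlinarith
  calc _ ≤ 2 * B * (1 / h) := mul_le_mul_of_nonneg_left h4 (by positivity)
    _ = 2 * B / h := by ring

theorem conv_of_lac (a : ℕ → ℂ) (B : ℝ) (ha : ∀ n, ‖a n‖ ≤ B)
    (h : ∀ h : ℕ, 1 ≤ h → ∃ L, Tendsto (fun j => Pool.Lib.Erg.avg a (lacN h j)) atTop (𝓝 L)) :
    ∃ L, Tendsto (Pool.Lib.Erg.avg a) atTop (𝓝 L) := by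
  have hB : 0 ≤ B := (norm_nonneg _).trans (ha 0)
  apply Pool.Lib.Erg.exists_lim_of_cauchyAt
  intro i
  have hpos : (0 : ℝ) < 1 / ((i : ℝ) + 1) := by positivity
  set ε := 1 / ((i : ℝ) + 1) with hε
  obtain ⟨k, hk⟩ := exists_nat_gt (8 * B / ε)
  have hk1 : 1 ≤ k + 1 := Nat.le_add_left _ _
  obtain ⟨L, hL⟩ := h (k + 1) hk1
  obtain ⟨J, hJ⟩ := Pool.Lib.Erg.cauchyAt_of_lim _ L hL (ε / 2) (by positivity)
  have hkk : (0 : ℝ) < ((k + 1 : ℕ) : ℝ) := by positivity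
  have hsmall : 2 * B / ((k + 1 : ℕ) : ℝ) ≤ ε / 4 := by
    rw [div_lt_iff₀ hpos] at hk
    rw [div_le_iff₀ hkk]
    push_cast
    nlinarith
  refine ⟨lacN (k + 1) J, fun m hm n hn => ?_⟩
  obtain ⟨j1, hj1, h11, h12⟩ := lacN_between (k + 1) hk1 J m hm
  obtain ⟨j2, hj2, h21, h22⟩ := lacN_between (k + 1) hk1 J n hn
  have c1 := lacN_close a B ha (k + 1) hk1 j1 m h11 h12
  have c2 := lacN_close a B ha (k + 1) hk1 j2 n h21 h22
  have c3 := hJ j1 hj1 j2 hj2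
  have e : Pool.Lib.Erg.avg a m - Pool.Lib.Erg.avg a n =
      (Pool.Lib.Erg.avg a m - Pool.Lib.Erg.avg a (lacN (k + 1) j1)) -
      (Pool.Lib.Erg.avg a n - Pool.Lib.Erg.avg a (lacN (k + 1) j2)) +
      (Pool.Lib.Erg.avg a (lacN (k + 1) j1) - Pool.Lib.Erg.avg a (lacN (k + 1) j2)) := by ring
  rw [e]
  refine (norm_add_le _ _).trans ?_
  have := norm_sub_le (Pool.Lib.Erg.avg a m - Pool.Lib.Erg.avg a (lacN (k + 1) j1))
    (Pool.Lib.Erg.avg a n - Pool.Lib.Erg.avg a (lacN (k + 1) j2))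
  linarith

end Pool.PolyConv
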