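import Pool.Agent.PolyConv.Gen
import Pool.Agent.PolyMax.Geo

set_option autoImplicit false

/-!
# PolyConv: level `s` of the model and box averages

PROOF.  Put `Q = Qs s ≥ 1`.
* `u_mul`: `u n (Q th) * u Q th = (n Q)⁻¹ ∑_{y < n} ∑_{z < Q} e ((Q y + z) th) = u (n * Q) th`
  (division with remainder; e.g. induction on `n`, or `Finset.sum_range` over `n * Q`,
  `Pool.Lib.Erg.sum_range_mul` is such a lemma).
* For `q` in level `s` (`1 ≤ q < 2^{s+1}`, so `q ∣ Q`) and any `a`, `Q (xi j - a_j / q) - Q xi j` is an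
  integer, so by `u_congr` `u n (Q xi j) = u n (Q * fr xi q a j)`, and
  `(∏_j u (N^{j+1}) (Q xi j)) * ∏_j u Q (fr xi q a j) = ∏_j u (N^{j+1} * Q) (fr xi q a j)`.
* `box_near`: for every `be` and `N ≥ 1`
  `‖w N be - ∏_j u (N^{j+1} * Q) (be j)‖ ≤ C_Q gf 1 (sz N be)`, `C_Q = C(D) * Q`:
  `‖w N be - 1‖ ≤ C sz N be` (`w_near`), `‖u (N^{j+1} Q) (be j) - 1‖ ≤ 2 π N^{j+1} Q dz (be j)`
  (`u_near`), product by `kernel_norm_prod_sub_one`: so the difference is `≤ C_Q sz N be`;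
  `‖w N be‖ sz N be ≤ D` (`w_decay_one`); for the product choose `j` with
  `N^{j+1} dz (be j) ≥ sz N be / D` (if `D ≥ 1`; for `D = 0` everything is `1 - 1 = 0`) and use
  `u_decay`: `‖∏‖ * sz N be ≤ D / 2`; so the difference is `≤ 2 D / sz N be`.
  `gf 1 x = min x (x ^ (-1))` (rpow; `gf_of_le_one`, `gf_of_one_le`).
* `Lam s N xi - (∏_j u (N^{j+1}) (Q xi j)) * Ts s xi
   = ∑_{q, a} G q a (w N (fr xi q a) - ∏_j u (N^{j+1} Q) (fr xi q a j))`, so with `‖G‖ ≤ 1` the norm is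
  at most `∑_{q, a} C_Q gf 1 (sz N (fr xi q a))`; the square is at most
  `(number of (q, a)) * ∑_{q, a} C_Q² gf 1 (sz N (fr xi q a))²` (Cauchy-Schwarz,
  `sq_sum_le_card_mul_sum_sq`), the number of pairs depends only on `D`, `s`.
* Sum over `k`: for each `(q, a)` use `geo1 rho 1` with `x k = sz (N k) (fr xi q a)` (`sz_grow`).
-/

open Finset

namespace Pool.PolyConv

open Pool.PolyMax

lemma lev_sum_range_mul (f : ℕ → ℂ) (n Q : ℕ) :
    ∑ t ∈ range (n * Q), f t = ∑ y ∈ range n, ∑ z ∈ range Q, f (y * Q + z) := by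
  induction n with
  | zero => simp
  | succ n ih =>
    rw [Nat.succ_mul, Finset.sum_range_add, ih, Finset.sum_range_succ]

theorem u_mul (n Q : ℕ) (th : ℝ) : u n ((Q : ℝ) * th) * u Q th = u (n * Q) th := by
  unfold u
  rw [lev_sum_range_mul]
  have h1 : ∀ y ∈ range n, ∑ z ∈ range Q, e (((y * Q + z : ℕ) : ℝ) * th) =
      e ((y : ℝ) * ((Q : ℝ) * th)) * ∑ z ∈ range Q, e ((z : ℝ) * th) := by
    intro y _
    rw [Finset.mul_sum]
    refine Finset.sum_congr rfl fun z _ => ?_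
    rw [← e_add]
    congr 1
    push_cast
    ring
  rw [Finset.sum_congr rfl h1, ← Finset.sum_mul]
  push_cast
  rw [mul_inv]
  ring

theorem box_near (D Q : ℕ) (hQ : 1 ≤ Q) : ∃ C : ℝ, 0 < C ∧ ∀ (N : ℕ) (be : Fin D → ℝ), 1 ≤ N →
    ‖w N be - ∏ j : Fin D, u (N ^ ((j : ℕ) + 1) * Q) (be j)‖ ≤ C * gf 1 (sz N be) := by
  have hpi := Real.pi_pos
  have hQ0 : (1 : ℝ) ≤ Q := by exact_mod_cast hQ
  refine ⟨2 * Real.pi * (D + 2) + 2 * Real.pi * Q + 2 * D, by positivity, ?_⟩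
  intro N be hN
  have hN1 : (1 : ℝ) ≤ N := by exact_mod_cast hN
  have hX0 := sz_nonneg N be
  have hprod_le : ∀ j : Fin D, ‖∏ i : Fin D, u (N ^ ((i : ℕ) + 1) * Q) (be i)‖ ≤
      ‖u (N ^ ((j : ℕ) + 1) * Q) (be j)‖ := by
    intro j
    rw [norm_prod, ← Finset.mul_prod_erase _ _ (Finset.mem_univ j)]
    refine mul_le_of_le_one_right (norm_nonneg _) ?_
    exact Finset.prod_le_one (fun i _ => norm_nonneg _) (fun i _ => norm_u_le_one _ _)
  have hdec : ‖∏ i : Fin D, u (N ^ ((i : ℕ) + 1) * Q) (be i)‖ * sz N be ≤ D := by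
    unfold sz
    rw [Finset.mul_sum]
    have : ∀ j ∈ (Finset.univ : Finset (Fin D)),
        ‖∏ i : Fin D, u (N ^ ((i : ℕ) + 1) * Q) (be i)‖ * ((N : ℝ) ^ ((j : ℕ) + 1) * dz (be j)) ≤
          1 := by
      intro j _
      have h1 := u_decay (N ^ ((j : ℕ) + 1) * Q) (be j)
      push_cast at h1
      have h0 : 0 ≤ (N : ℝ) ^ ((j : ℕ) + 1) * dz (be j) :=
        mul_nonneg (by positivity) (dz_nonneg _)
      have h2 : (N : ℝ) ^ ((j : ℕ) + 1) * dz (be j) ≤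
          2 * ((N : ℝ) ^ ((j : ℕ) + 1) * Q) * dz (be j) := by
        nlinarith
      calc ‖∏ i : Fin D, u (N ^ ((i : ℕ) + 1) * Q) (be i)‖ * ((N : ℝ) ^ ((j : ℕ) + 1) * dz (be j))
          ≤ ‖u (N ^ ((j : ℕ) + 1) * Q) (be j)‖ * (2 * ((N : ℝ) ^ ((j : ℕ) + 1) * Q) * dz (be j)) :=
            mul_le_mul (hprod_le j) h2 h0 (norm_nonneg _)
        _ ≤ 1 := h1
    refine (Finset.sum_le_sum this).trans ?_
    simp
  have hnear : ‖w N be - ∏ j : Fin D, u (N ^ ((j : ℕ) + 1) * Q) (be j)‖ ≤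
      (2 * Real.pi * (D + 2) + 2 * Real.pi * Q) * sz N be := by
    have h1 := w_near N hN be
    have h2 : ‖∏ j : Fin D, u (N ^ ((j : ℕ) + 1) * Q) (be j) - 1‖ ≤ 2 * Real.pi * Q * sz N be := by
      refine (kernel_norm_prod_sub_one _ _ fun i _ => norm_u_le_one _ _).trans ?_
      rw [sz, Finset.mul_sum]
      refine Finset.sum_le_sum fun j _ => ?_
      have h3 := u_near (N ^ ((j : ℕ) + 1) * Q)
        (Nat.one_le_iff_ne_zero.2 (by positivity)) (be j)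
      push_cast at h3
      calc _ ≤ _ := h3
        _ = _ := by ring
    have h3 : w N be - ∏ j : Fin D, u (N ^ ((j : ℕ) + 1) * Q) (be j) =
        (w N be - 1) - (∏ j : Fin D, u (N ^ ((j : ℕ) + 1) * Q) (be j) - 1) := by ring
    rw [h3]
    refine (norm_sub_le _ _).trans ?_
    linarith
  rcases le_total (sz N be) 1 with h | h
  · rw [gf_of_le_one one_pos hX0 h]
    refine hnear.trans ?_
    have : (0 : ℝ) ≤ 2 * D * sz N be := by positivity
    linarith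
  · have hXp : 0 < sz N be := by linarith
    rw [gf_of_one_le one_pos h, Real.rpow_neg_one]
    have h1 : ‖w N be - ∏ j : Fin D, u (N ^ ((j : ℕ) + 1) * Q) (be j)‖ * sz N be ≤ 2 * D := by
      have h2 := w_decay_one N be
      calc _ ≤ (‖w N be‖ + ‖∏ j : Fin D, u (N ^ ((j : ℕ) + 1) * Q) (be j)‖) * sz N be :=
            mul_le_mul_of_nonneg_right (norm_sub_le _ _) hX0
        _ = ‖w N be‖ * sz N be + ‖∏ j : Fin D, u (N ^ ((j : ℕ) + 1) * Q) (be j)‖ * sz N be := by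
            ring
        _ ≤ D + D := add_le_add h2 hdec
        _ = 2 * D := by ring
    have h2 : ‖w N be - ∏ j : Fin D, u (N ^ ((j : ℕ) + 1) * Q) (be j)‖ ≤ 2 * D * (sz N be)⁻¹ := by
      rw [← div_eq_mul_inv, le_div_iff₀ hXp]
      exact h1
    refine h2.trans ?_
    refine mul_le_mul_of_nonneg_right ?_ (by positivity)
    have : (0 : ℝ) ≤ 2 * Real.pi * (D + 2) + 2 * Real.pi * Q := by positivity
    linarith

lemma lev_prod_eq {D : ℕ} (s N : ℕ) (xi : Fin D → ℝ) (q : ℕ) (a : Fin D → ℕ)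
    (hq : q ∈ Ico (2 ^ s) (2 ^ (s + 1))) :
    (∏ j : Fin D, u (N ^ ((j : ℕ) + 1)) ((Qs s : ℝ) * xi j)) *
      ∏ j : Fin D, u (Qs s) (fr xi q a j) =
    ∏ j : Fin D, u (N ^ ((j : ℕ) + 1) * Qs s) (fr xi q a j) := by
  rw [Finset.mem_Ico] at hq
  have hq0 : 0 < q := lt_of_lt_of_le (by positivity) hq.1
  have hdvd : q ∣ Qs s := Nat.dvd_factorial hq0 hq.2.le
  obtain ⟨c, hc⟩ := hdvd
  rw [← Finset.prod_mul_distrib]
  refine Finset.prod_congr rfl fun j _ => ?_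
  rw [← u_mul]
  congr 1
  apply u_congr (k := ((c * a j : ℕ) : ℤ))
  have hqr : (q : ℝ) ≠ 0 := by exact_mod_cast hq0.ne'
  rw [hc]
  unfold fr
  push_cast
  field_simp
  ring

theorem lev_sq (D : ℕ) (rho : ℝ) (hrho : 1 < rho) (s : ℕ) : ∃ C : ℝ, 0 < C ∧
    ∀ (N : ℕ → ℕ), Lac rho N → ∀ (xi : Fin D → ℝ) (K : ℕ),
      ∑ k ∈ range K, ‖Lam s (N k) xi -
        (∏ j : Fin D, u ((N k) ^ ((j : ℕ) + 1)) ((Qs s : ℝ) * xi j)) * Ts s xi‖ ^ 2 ≤ C := by
  have hQ1 : 1 ≤ Qs s := Nat.one_le_iff_ne_zero.2 (Nat.factorial_ne_zero _)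
  obtain ⟨C0, hC0, hbox⟩ := box_near D (Qs s) hQ1
  obtain ⟨C1, hC1, hgeo⟩ := geo1 rho 1 hrho one_pos
  set S : Finset (Σ _ : ℕ, (Fin D → ℕ)) :=
    (Ico (2 ^ s) (2 ^ (s + 1))).sigma (fun q => redF D q) with hS
  refine ⟨(S.card : ℝ) * (S.card * (C0 ^ 2 * C1)) + 1, by positivity, ?_⟩
  intro N hN xi K
  have hpt : ∀ k, ‖Lam s (N k) xi -
      (∏ j : Fin D, u ((N k) ^ ((j : ℕ) + 1)) ((Qs s : ℝ) * xi j)) * Ts s xi‖ ^ 2 ≤
      (S.card : ℝ) * ∑ p ∈ S, C0 ^ 2 * gf 1 (sz (N k) (fr xi p.1 p.2)) ^ 2 := by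
    intro k
    have h1 : Lam s (N k) xi -
        (∏ j : Fin D, u ((N k) ^ ((j : ℕ) + 1)) ((Qs s : ℝ) * xi j)) * Ts s xi =
        ∑ p ∈ S, G p.1 p.2 * (w (N k) (fr xi p.1 p.2) -
          ∏ j : Fin D, u ((N k) ^ ((j : ℕ) + 1) * Qs s) (fr xi p.1 p.2 j)) := by
      unfold Lam Ts
      rw [hS, Finset.sum_sigma, Finset.mul_sum, ← Finset.sum_sub_distrib]
      refine Finset.sum_congr rfl fun q hq => ?_
      rw [Finset.mul_sum, ← Finset.sum_sub_distrib]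
      refine Finset.sum_congr rfl fun a _ => ?_
      rw [← lev_prod_eq s (N k) xi q a hq]
      ring
    have h2 : ‖Lam s (N k) xi -
        (∏ j : Fin D, u ((N k) ^ ((j : ℕ) + 1)) ((Qs s : ℝ) * xi j)) * Ts s xi‖ ≤
        ∑ p ∈ S, C0 * gf 1 (sz (N k) (fr xi p.1 p.2)) := by
      rw [h1]
      refine (norm_sum_le _ _).trans ?_
      refine Finset.sum_le_sum fun p _ => ?_
      rw [norm_mul]
      calc ‖G p.1 p.2‖ * ‖w (N k) (fr xi p.1 p.2) -
              ∏ j : Fin D, u ((N k) ^ ((j : ℕ) + 1) * Qs s) (fr xi p.1 p.2 j)‖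
          ≤ 1 * (C0 * gf 1 (sz (N k) (fr xi p.1 p.2))) :=
            mul_le_mul (norm_G_le_one _ _) (hbox (N k) (fr xi p.1 p.2) (hN.pos k))
              (norm_nonneg _) zero_le_one
        _ = _ := one_mul _
    calc _ ≤ (∑ p ∈ S, C0 * gf 1 (sz (N k) (fr xi p.1 p.2))) ^ 2 :=
          pow_le_pow_left₀ (norm_nonneg _) h2 2
      _ ≤ (S.card : ℝ) * ∑ p ∈ S, (C0 * gf 1 (sz (N k) (fr xi p.1 p.2))) ^ 2 :=
          sq_sum_le_card_mul_sum_sq
      _ = _ := by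
          congr 1
          refine Finset.sum_congr rfl fun p _ => ?_
          rw [mul_pow]
  have hmain : ∑ k ∈ range K, ‖Lam s (N k) xi -
      (∏ j : Fin D, u ((N k) ^ ((j : ℕ) + 1)) ((Qs s : ℝ) * xi j)) * Ts s xi‖ ^ 2 ≤
      (S.card : ℝ) * (S.card * (C0 ^ 2 * C1)) := by
    refine (Finset.sum_le_sum fun k _ => hpt k).trans ?_
    rw [← Finset.mul_sum, Finset.sum_comm]
    refine mul_le_mul_of_nonneg_left ?_ (by positivity)
    have : ∀ p ∈ S, ∑ k ∈ range K, C0 ^ 2 * gf 1 (sz (N k) (fr xi p.1 p.2)) ^ 2 ≤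
        C0 ^ 2 * C1 := by
      intro p _
      rw [← Finset.mul_sum]
      refine mul_le_mul_of_nonneg_left ?_ (by positivity)
      exact hgeo (fun k => sz (N k) (fr xi p.1 p.2)) (fun k => sz_nonneg _ _)
        (fun k => sz_grow hrho.le (hN.grow k) _) _
    refine (Finset.sum_le_sum this).trans ?_
    rw [Finset.sum_const, nsmul_eq_mul]
  linarith

end Pool.PolyConv
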