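import Pool.Agent.PolyConv.Gen
import Pool.Agent.PolyMax.LamMax

set_option autoImplicit false

/-!
# PolyConv: the high levels of the model have small maximal function

PROOF.  `C, de` from `lam_max`.  `ep R = ∑'_{s ≥ R} C (s + 1) 2^{-de s}` (a tail of a convergent series,
e.g. `∑' s, C ((s + R) + 1) 2^{-de (s + R)}`; `tendsto_sum_nat_add`).  For `k ≤ K` the multiplier is
`∑_{s ∈ Ico R (N K + 1)} (if 2^{Ex D s} ≤ N k then Lam s (N k) xi else 0)` (`N` is monotone; if
`2^{Ex D s} ≤ N k` then `s ≤ N k`, since `s < 2^s ≤ 2^{Ex D s}`), so `MaxBd.of_trunc`, `MaxBd.sum` and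
`lam_max` (compare the header of `PolyMax.MaxZ`).
-/

open Finset Filter Topology

namespace Pool.PolyConv

open Pool.PolyMax

private lemma summable_tail {C de : ℝ} (hde : 0 < de) :
    Summable fun s : ℕ => C * ((s : ℝ) + 1) * (2 : ℝ) ^ (-de * s) := by
  have hr : (2 : ℝ) ^ (-de) < 1 := Real.rpow_lt_one_of_one_lt_of_neg (by norm_num) (by linarith)
  have hr0 : 0 < (2 : ℝ) ^ (-de) := by positivity
  have hn : ‖(2 : ℝ) ^ (-de)‖ < 1 := by rwa [Real.norm_of_nonneg hr0.le]
  have h1 := summable_pow_mul_geometric_of_norm_lt_one 1 hn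
  have h2 := summable_geometric_of_lt_one hr0.le hr
  refine ((h1.add h2).mul_left C).congr fun s => ?_
  rw [Real.rpow_mul (by norm_num), Real.rpow_natCast]
  ring

theorem tail_max (D : ℕ) (rho : ℝ) (hrho : 1 < rho) : ∃ ep : ℕ → ℝ, (∀ R, 0 ≤ ep R) ∧
    Tendsto ep atTop (𝓝 0) ∧ ∀ (N : ℕ → ℕ), Lac rho N → ∀ R : ℕ,
      MaxBd (fun k (xi : Fin D → ℝ) => ∑ s ∈ (sr D (N k)).filter (R ≤ ·), Lam s (N k) xi)
        (ep R) := by
  obtain ⟨C, de, hC, hde, h⟩ := lam_max D rho hrho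
  set a : ℕ → ℝ := fun s => C * ((s : ℝ) + 1) * (2 : ℝ) ^ (-de * s) with ha
  have hs : Summable a := summable_tail hde
  have hnn : ∀ s, 0 ≤ a s := fun s => by
    simp only [ha]
    positivity
  refine ⟨fun R => ∑' s, a (s + R), fun R => tsum_nonneg fun s => hnn _, tendsto_sum_nat_add a,
    fun N hN R => ?_⟩
  apply MaxBd.of_trunc
  intro K
  refine ⟨fun k xi => ∑ s ∈ Ico R (N K + 1), if 2 ^ (Ex D * s) ≤ N k then Lam s (N k) xi else 0,
    fun k hk => ?_, ?_⟩
  · funext xi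
    have hNk : N k ≤ N K := hN.strictMono.monotone hk
    rw [sr, Finset.filter_filter]
    simp only
    rw [← Finset.sum_filter]
    apply Finset.sum_congr _ (fun _ _ => rfl)
    ext s
    simp only [mem_filter, mem_Ico, mem_range]
    constructor
    · rintro ⟨⟨h1, h2⟩, h3⟩
      have h4 : 2 ^ s ≤ 2 ^ (Ex D * s) := by
        apply Nat.pow_le_pow_right (by norm_num)
        have : 1 ≤ Ex D := by unfold Ex; omega
        nlinarith
      have h5 : s < 2 ^ s := Nat.lt_two_pow_self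
      exact ⟨by omega, h3, h1⟩
    · rintro ⟨h1, h2, h3⟩
      exact ⟨⟨h3, by omega⟩, h2⟩
  · refine (MaxBd.sum (Ico R (N K + 1))
      (fun (s : ℕ) (k : ℕ) (xi : Fin D → ℝ) => if 2 ^ (Ex D * s) ≤ N k then Lam s (N k) xi else 0)
      a (fun s _ => h N hN s)).mono ?_
    rw [Finset.sum_Ico_eq_sum_range]
    have h1 : Summable fun s => a (s + R) := (summable_nat_add_iff R).2 hs
    refine le_trans (le_of_eq ?_) (h1.sum_le_tsum (range (N K + 1 - R)) (fun s _ => hnn _))
    exact Finset.sum_congr rfl fun s _ => by rw [add_comm]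

end Pool.PolyConv
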