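import Pool.Agent.PolyConv.Tr
import Pool.Agent.PolyConv.Lev
import Pool.Agent.PolyConv.Boxes
import Pool.Agent.PolyConv.Lacu
import Pool.Agent.PolyConv.Tail
import Pool.Agent.PolyMax.SqBound

set_option autoImplicit false

/-!
# PolyConv: almost everywhere convergence along lacunary sequences, and along all `N`

PROOF of `conv_lac`.  Fix `f`, `N`.  Trigonometric polynomials (`TP D`): `pav D (N k)`, `mdl (N k)`,
`Lam s (N k)`, `Ts s` (`isTP_mdl`, `isTP_Lam`, `isTP_Ts`), `box D (Qs s) (N k)`.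
(1) `op (pav D (N k) - mdl (N k)) f → 0` a.e. by `tr_zero` and `sq_bound`.
(2) For each `s`: `op (Lam s (N k)) f x` converges for a.e. `x` as `k → ∞`:
`Lam s (N k) = (Lam s (N k) - box D (Qs s) (N k) * Ts s) + box D (Qs s) (N k) * Ts s`; the first part
tends to `0` a.e. by `tr_zero` and `lev_sq` (`ev_box`); the second is `op (box ..) (op (Ts s) f)`
(`map_mul`) and converges by `box_conv` (`measurable_op`, `op_bdd`) composed with `N k → ∞`.
(3) Let `R : ℕ`.  For `k` large all `s < R` are in `sr D (N k)` and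
`mdl (N k) = ∑_{s < R} Lam s (N k) + tail_{R, k}`, `tail_{R, k}` the sum over `s ∈ sr D (N k)`, `R ≤ s`
(a trigonometric polynomial by `isTP_sum`).  `tr_max` and `tail_max`:
`∫ sup_k ‖op tail_{R, k} f‖² ≤ 2^D ep(R)² ∫ ‖f‖²`.
(4) For `r > 0`: for every `R`, for a.e. `x` outside `{sup_k ‖op tail_{R,k} f x‖ > r}` the sequence
`a_k = op (pav D (N k)) f x` is `CauchyAt _ (3 r)`; by Chebyshev the outer measure of the set of `x`
where it is not is `≤ r^{-2} 2^D ep(R)² ∫ ‖f‖²` for every `R`, so it is `0`.  `exists_lim_of_cauchyAt`.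
The operators depend on the trigonometric polynomial, not only on its function; write
`pav D (N k) = p1 k + ∑_{s < R} (lam s k - box D (Qs s) (N k) * t s) + ∑_{s < R} box D (Qs s) (N k) * t s + tl R k`
as an identity in `TP D` which defines `p1 k`, where `lam`, `t`, `tl` are chosen trigonometric
polynomials for `Lam s (N k)`, `Ts s`, the tail; `ev (p1 k) = m (N k) - mdl (N k)` for `k` large.

PROOF of `conv_all`: `conv_lac` for `N = lacN h` for all `h ≥ 1` (`lacN_lac`), `op_pav` and `conv_of_lac`.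
-/

open Finset MeasureTheory Filter Topology
open scoped ENNReal NNReal

namespace Pool.PolyConv

open Pool.PolyMax

variable {X : Type*} [MeasurableSpace X] {D : ℕ}

/-- For large `n` all levels `s < R` are used at scale `n`. -/
private lemma mem_sr_of_large {D R n : ℕ} (h : 2 ^ (Ex D * R) + R ≤ n) {s : ℕ} (hs : s < R) :
    s ∈ sr D n := by
  rw [sr, mem_filter, mem_range]
  have h1 : 2 ^ (Ex D * s) ≤ 2 ^ (Ex D * R) :=
    Nat.pow_le_pow_right (by norm_num) (Nat.mul_le_mul_left _ hs.le)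
  have h2 : 0 < 2 ^ (Ex D * R) := by positivity
  constructor
  · omega
  · omega

/-- The model is the sum of the low levels and of the tail. -/
private lemma mdl_split {D : ℕ} (R n : ℕ) (h : ∀ s < R, s ∈ sr D n) (xi : Fin D → ℝ) :
    mdl n xi = ∑ s ∈ range R, Lam s n xi + ∑ s ∈ (sr D n).filter (R ≤ ·), Lam s n xi := by
  rw [mdl, ← Finset.sum_filter_add_sum_filter_not (sr D n) (fun s => s < R)]
  have h1 : (sr D n).filter (fun s => s < R) = range R := by
    ext s
    rw [mem_filter, mem_range]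
    exact ⟨fun h' => h'.2, fun h' => ⟨h s h', h'⟩⟩
  have h2 : (sr D n).filter (fun s => ¬ s < R) = (sr D n).filter (R ≤ ·) := by
    ext s
    rw [mem_filter, mem_filter, not_lt]
  rw [h1, h2]

theorem conv_lac (rho : ℝ) (hrho : 1 < rho) (N : ℕ → ℕ) (hN : Lac rho N) (mu : Measure X)
    [IsProbabilityMeasure mu] (U : Fin D → Equiv.Perm X) (hU : ∀ i j, Commute (U i) (U j))
    (hmp : ∀ j, MeasurePreserving (U j) mu mu) (f : X → ℂ) (hf : Measurable f) (B : ℝ)
    (hB : ∀ x, ‖f x‖ ≤ B) :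
    ∀ᵐ x ∂mu, ∃ L, Tendsto (fun k => op U hU (pav D (N k)) f x) atTop (𝓝 L) := by
  classical
  have hNtop : Tendsto N atTop atTop := hN.strictMono.tendsto_atTop
  have hm : ∀ j, Measurable (U j) := fun j => (hmp j).measurable
  have hX : Nonempty X := by
    by_contra h
    rw [not_nonempty_iff] at h
    have h1 : mu Set.univ = 1 := measure_univ
    rw [Set.univ_eq_empty_iff.2 h, measure_empty] at h1
    exact zero_ne_one h1
  have hB0 : 0 ≤ B := (norm_nonneg _).trans (hB hX.some)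
  have hfint : ∫⁻ x, ‖f x‖ₑ ^ 2 ∂mu ≤ ENNReal.ofReal (B ^ 2) := by
    calc ∫⁻ x, ‖f x‖ₑ ^ 2 ∂mu ≤ ∫⁻ _x, ENNReal.ofReal (B ^ 2) ∂mu := by
          refine lintegral_mono fun x => ?_
          rw [← ofReal_norm, ← ENNReal.ofReal_pow (norm_nonneg _)]
          exact ENNReal.ofReal_le_ofReal (pow_le_pow_left₀ (norm_nonneg _) (hB x) 2)
      _ = ENNReal.ofReal (B ^ 2) := by simp
  have hf2 : ∫⁻ x, ‖f x‖ₑ ^ 2 ∂mu ≠ ∞ := ne_top_of_le_ne_top ENNReal.ofReal_ne_top hfint
  -- the trigonometric polynomials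
  choose lam hlam using fun s k => isTP_Lam (D := D) s (N k)
  choose t ht using fun s => isTP_Ts (D := D) s
  have htl0 : ∀ R k, IsTP (fun xi : Fin D → ℝ =>
      ∑ s ∈ (sr D (N k)).filter (R ≤ ·), Lam s (N k) xi) := fun R k =>
    isTP_sum _ (fun s xi => Lam s (N k) xi) fun s _ => isTP_Lam s (N k)
  choose tl htl using htl0
  obtain ⟨C1, hC1, hsq⟩ := sq_bound D rho hrho
  obtain ⟨ep, hep0, hepl, htail⟩ := tail_max D rho hrho
  -- (1) the error part
  obtain ⟨p1, hp1⟩ : ∃ p1 : ℕ → ℕ → TP D, ∀ R k, p1 R k =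
      if ∀ s < R, s ∈ sr D (N k) then
        pav D (N k) - ∑ s ∈ range R, lam s k - tl R k else 0 := ⟨_, fun _ _ => rfl⟩
  have hp1ev : ∀ R k xi, ‖ev (p1 R k) xi‖ ≤ ‖m (N k) xi - mdl (N k) xi‖ := by
    intro R k xi
    rw [hp1]
    split_ifs with hc
    · refine le_of_eq ?_
      rw [mdl_split R (N k) hc xi, map_sub, map_sub, map_sum]
      simp only [Pi.sub_apply, Finset.sum_apply, ev_pav, hlam, htl]
      congr 1
      ring
    · simp
  have hz1 : ∀ R, ∀ᵐ x ∂mu, Tendsto (fun k => op U hU (p1 R k) f x) atTop (𝓝 0) := by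
    intro R
    refine tr_zero (p1 R) C1 hC1.le (fun xi K => ?_) mu U hU hmp f hf hf2
    refine le_trans (Finset.sum_le_sum fun k _ => ?_) (hsq N hN xi K)
    exact pow_le_pow_left₀ (norm_nonneg _) (hp1ev R k xi) 2
  -- (2) one level
  have hz2 : ∀ s, ∀ᵐ x ∂mu, ∃ L, Tendsto (fun k => op U hU (lam s k) f x) atTop (𝓝 L) := by
    intro s
    obtain ⟨C2, hC2, hlev⟩ := lev_sq D rho hrho s
    have ha : ∀ᵐ x ∂mu, Tendsto (fun k => op U hU (lam s k - box D (Qs s) (N k) * t s) f x)
        atTop (𝓝 0) := by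
      refine tr_zero _ C2 hC2.le (fun xi K => ?_) mu U hU hmp f hf hf2
      refine le_trans (le_of_eq (Finset.sum_congr rfl fun k _ => ?_)) (hlev N hN xi K)
      rw [map_sub, map_mul, Pi.sub_apply, Pi.mul_apply, hlam, ht, ev_box]
    obtain ⟨C3, hC3⟩ := op_bdd (hU := hU) (t s) hB
    have hb := box_conv mu U hU hmp (Qs s) (op U hU (t s) f) (measurable_op hm (t s) hf) C3 hC3
    filter_upwards [ha, hb] with x hx1 hx2
    obtain ⟨L, hL⟩ := hx2
    refine ⟨0 + L, ?_⟩
    have h1 := hx1.add (hL.comp hNtop)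
    refine h1.congr fun k => ?_
    rw [Function.comp_apply, map_sub, map_mul]
    simp only [LinearMap.sub_apply, Pi.sub_apply, Module.End.mul_apply]
    ring
  -- (3) the maximal function of the tail
  obtain ⟨gR, hgR⟩ : ∃ gR : ℕ → X → ℝ≥0∞, ∀ R x, gR R x = ⨆ k : ℕ, ‖op U hU (tl R k) f x‖ₑ :=
    ⟨_, fun _ _ => rfl⟩
  have hgm : ∀ R, Measurable (gR R) := by
    intro R
    have : gR R = fun x => ⨆ k : ℕ, ‖op U hU (tl R k) f x‖ₑ := funext (hgR R)
    rw [this]
    exact Measurable.iSup fun k => (measurable_op hm (tl R k) hf).enorm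
  have hg2 : ∀ R, ∫⁻ x, gR R x ^ 2 ∂mu ≤
      2 ^ D * ENNReal.ofReal (ep R ^ 2) * ENNReal.ofReal (B ^ 2) := by
    intro R
    have h1 : MaxBd (fun k => ev (tl R k)) (ep R) := by
      have h2 : (fun k => (ev (tl R k) : (Fin D → ℝ) → ℂ)) = fun k (xi : Fin D → ℝ) =>
          ∑ s ∈ (sr D (N k)).filter (R ≤ ·), Lam s (N k) xi := by
        funext k xi
        exact htl R k xi
      rw [h2]
      exact htail N hN R
    have h3 := tr_max (tl R) (ep R) (hep0 R) h1 mu U hU hmp f hf
    simp only [← hgR] at h3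
    exact h3.trans (mul_le_mul_right hfint _)
  have hcl : Tendsto (fun R => 2 ^ D * ENNReal.ofReal (ep R ^ 2) * ENNReal.ofReal (B ^ 2))
      atTop (𝓝 0) := by
    have h1 : Tendsto (fun R => 2 ^ D * (ep R) ^ 2 * B ^ 2) atTop (𝓝 0) := by
      have := ((hepl.pow 2).const_mul ((2 : ℝ) ^ D)).mul_const (B ^ 2)
      simpa using this
    have h2 := ENNReal.tendsto_ofReal h1
    rw [ENNReal.ofReal_zero] at h2
    refine h2.congr fun R => ?_
    rw [ENNReal.ofReal_mul (by positivity), ENNReal.ofReal_mul (by positivity),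
      ENNReal.ofReal_pow (by norm_num)]
    norm_num
  -- (4) the sequence is Cauchy up to any error
  have key : ∀ j : ℕ, ∀ᵐ x ∂mu, Pool.Lib.Erg.CauchyAt (fun k => op U hU (pav D (N k)) f x)
      (1 / ((j : ℝ) + 1)) := by
    intro j
    obtain ⟨r, hr⟩ : ∃ r : ℝ, r = 1 / (3 * ((j : ℝ) + 1)) := ⟨_, rfl⟩
    have hr0 : 0 < r := by rw [hr]; positivity
    have h3r : 3 * r = 1 / ((j : ℝ) + 1) := by
      rw [hr]
      field_simp
    -- good points
    have hgood : ∀ R, ∀ᵐ x ∂mu, gR R x < ENNReal.ofReal r →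
        Pool.Lib.Erg.CauchyAt (fun k => op U hU (pav D (N k)) f x) (1 / ((j : ℝ) + 1)) := by
      intro R
      have hall : ∀ᵐ x ∂mu, ∀ s, ∃ L, Tendsto (fun k => op U hU (lam s k) f x) atTop (𝓝 L) :=
        ae_all_iff.2 hz2
      filter_upwards [hz1 R, hall] with x hx1 hx2 hxr
      choose L hL using hx2
      have hb : Tendsto (fun k => op U hU (p1 R k) f x + ∑ s ∈ range R, op U hU (lam s k) f x)
          atTop (𝓝 (0 + ∑ s ∈ range R, L s)) :=
        hx1.add (tendsto_finsetSum _ fun s _ => hL s)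
      obtain ⟨K0, hK0⟩ := Pool.Lib.Erg.cauchyAt_of_lim _ _ hb r hr0
      obtain ⟨K1, hK1⟩ := (tendsto_atTop.1 hNtop (2 ^ (Ex D * R) + R)).exists_forall_of_atTop
      have htlb : ∀ k, ‖op U hU (tl R k) f x‖ ≤ r := by
        intro k
        have h1 : ‖op U hU (tl R k) f x‖ₑ ≤ gR R x := by
          rw [hgR]
          exact le_iSup (fun k => ‖op U hU (tl R k) f x‖ₑ) k
        have h2 := h1.trans hxr.le
        rw [← ofReal_norm] at h2
        exact (ENNReal.ofReal_le_ofReal_iff hr0.le).1 h2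
      have hdec : ∀ k ≥ K1, op U hU (pav D (N k)) f x =
          (op U hU (p1 R k) f x + ∑ s ∈ range R, op U hU (lam s k) f x) +
            op U hU (tl R k) f x := by
        intro k hk
        have hc : ∀ s < R, s ∈ sr D (N k) := fun s hs => mem_sr_of_large (hK1 k hk) hs
        have h1 : pav D (N k) = p1 R k + ∑ s ∈ range R, lam s k + tl R k := by
          rw [hp1, if_pos hc]
          abel
        rw [h1, map_add, map_add, map_sum]
        simp only [LinearMap.add_apply, LinearMap.sum_apply, Pi.add_apply, Finset.sum_apply]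
      refine ⟨max K0 K1, fun a ha b hb' => ?_⟩
      have ha0 : K0 ≤ a := (le_max_left _ _).trans ha
      have ha1 : K1 ≤ a := (le_max_right _ _).trans ha
      have hb0 : K0 ≤ b := (le_max_left _ _).trans hb'
      have hb1 : K1 ≤ b := (le_max_right _ _).trans hb'
      have h4 := hK0 a ha0 b hb0
      rw [← h3r]
      simp only
      rw [hdec a ha1, hdec b hb1]
      calc _ = ‖((op U hU (p1 R a) f x + ∑ s ∈ range R, op U hU (lam s a) f x) -
            (op U hU (p1 R b) f x + ∑ s ∈ range R, op U hU (lam s b) f x)) +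
            op U hU (tl R a) f x - op U hU (tl R b) f x‖ := by
              congr 1
              ring
        _ ≤ ‖((op U hU (p1 R a) f x + ∑ s ∈ range R, op U hU (lam s a) f x) -
            (op U hU (p1 R b) f x + ∑ s ∈ range R, op U hU (lam s b) f x))‖ +
            ‖op U hU (tl R a) f x‖ + ‖op U hU (tl R b) f x‖ :=
              (norm_sub_le _ _).trans (add_le_add (norm_add_le _ _) le_rfl)
        _ ≤ r + r + r := add_le_add (add_le_add h4 (htlb a)) (htlb b)
        _ = 3 * r := by ring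
    -- the bad set is null
    rw [ae_iff]
    obtain ⟨bad, hbad⟩ : ∃ bad : Set X, bad = {x | ¬ Pool.Lib.Erg.CauchyAt
        (fun k => op U hU (pav D (N k)) f x) (1 / ((j : ℝ) + 1))} := ⟨_, rfl⟩
    rw [← hbad]
    have hle : ∀ R, mu bad ≤ 2 ^ D * ENNReal.ofReal (ep R ^ 2) * ENNReal.ofReal (B ^ 2) /
        ENNReal.ofReal (r ^ 2) := by
      intro R
      have h1 : mu bad ≤ mu {x | ENNReal.ofReal (r ^ 2) ≤ gR R x ^ 2} := by
        refine measure_mono_ae ?_
        filter_upwards [hgood R] with x hx hxb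
        have hxb' : x ∈ bad := hxb
        rw [hbad] at hxb'
        show ENNReal.ofReal (r ^ 2) ≤ gR R x ^ 2
        by_contra hlt
        apply hxb'
        apply hx
        rw [ENNReal.ofReal_pow hr0.le] at hlt
        by_contra hge
        exact hlt (pow_le_pow_left' (not_lt.1 hge) 2)
      refine h1.trans ?_
      have h2 := meas_ge_le_lintegral_div (μ := mu) (f := fun x => gR R x ^ 2)
        ((hgm R).pow_const 2).aemeasurable (ε := ENNReal.ofReal (r ^ 2))
        (by rw [Ne, ENNReal.ofReal_eq_zero, not_le]; positivity) ENNReal.ofReal_ne_top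
      exact h2.trans (ENNReal.div_le_div_right (hg2 R) _)
    have hlim : Tendsto (fun R => 2 ^ D * ENNReal.ofReal (ep R ^ 2) * ENNReal.ofReal (B ^ 2) /
        ENNReal.ofReal (r ^ 2)) atTop (𝓝 0) := by
      have h1 := ENNReal.Tendsto.div_const hcl (b := ENNReal.ofReal (r ^ 2))
        (Or.inr (by rw [Ne, ENNReal.ofReal_eq_zero, not_le]; positivity))
      rwa [ENNReal.zero_div] at h1
    exact le_antisymm (ge_of_tendsto' hlim hle) (zero_le)
  filter_upwards [ae_all_iff.2 key] with x hx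
  exact Pool.Lib.Erg.exists_lim_of_cauchyAt _ hx

/-- Almost everywhere convergence of the averages `N⁻¹ ∑_{n < N} f (U_0^n U_1^{n²} ... U_{D-1}^{n^D} x)`. -/
theorem conv_all (mu : Measure X) [IsProbabilityMeasure mu] (U : Fin D → Equiv.Perm X)
    (hU : ∀ i j, Commute (U i) (U j)) (hmp : ∀ j, MeasurePreserving (U j) mu mu) (f : X → ℂ)
    (hf : Measurable f) (B : ℝ) (hB : ∀ x, ‖f x‖ ≤ B) :
    ∀ᵐ x ∂mu, ∃ L, Tendsto (Pool.Lib.Erg.avg fun n =>
      f (act U (fun j : Fin D => n ^ ((j : ℕ) + 1)) x)) atTop (𝓝 L) := by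
  have h1 : ∀ h : ℕ, ∀ᵐ x ∂mu, 1 ≤ h → ∃ L, Tendsto (fun k =>
      op U hU (pav D (lacN h k)) f x) atTop (𝓝 L) := by
    intro h
    by_cases hh : 1 ≤ h
    · have hl := lacN_lac h hh
      filter_upwards [conv_lac _ hl.rho_gt (lacN h) hl mu U hU hmp f hf B hB] with x hx _
      exact hx
    · exact Eventually.of_forall fun x h' => absurd h' hh
  filter_upwards [ae_all_iff.2 h1] with x hx
  refine conv_of_lac _ B (fun n => hB _) fun h hh => ?_
  obtain ⟨L, hL⟩ := hx h hh
  refine ⟨L, hL.congr fun k => ?_⟩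
  rw [op_pav]
  rfl

end Pool.PolyConv
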