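import Pool.Agent.PolyConv.TP
import Pool.Agent.PolyMax.Kernel

set_option autoImplicit false

/-!
# PolyConv: the trigonometric polynomials which are used

`lin j Q n` is `n⁻¹ ∑_{y < n} z_j ^ (Q y)`, `box D Q N` the product of `lin j Q (N ^ (j + 1))`,
`pav D N` the average along the moment curve.  `Ts s` is the arithmetic part of level `s`: it is a
trigonometric polynomial.

PROOFS.  `ev`, `op` are algebra homomorphisms (`map_sum`, `map_mul`, `map_prod`), and their values on
`AddMonoidAlgebra.single` are `ev_single`, `op_single`.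
* `op_lin`: `act U (Pi.single j (Q y)) = U j ^ (Q y) = (U j ^ Q) ^ y`.
* `ev_box`: `map_list_prod` or induction over the list, `List.prod_ofFn`.
* `isTP_shift`: `q = ∑_{v ∈ support} single v (p_v * e (-∑_j al_j v_j))`.
* `isTP_u`: `u n (c * xi_j)` for `c : ℕ` is `ev (lin j c n)`.
* `isTP_Lam`: `G q a` is a constant, `w N` is a product of powers of `u (N ^ (j + 1)) (xi j)`, shifted
  by the vector `a / q` (`isTP_shift`).  `isTP_Ts`: the same.
-/

open Finset

namespace Pool.PolyConv

open Pool.PolyMax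

variable {X : Type*} {D : ℕ} {U : Fin D → Equiv.Perm X} {hU : ∀ i j, Commute (U i) (U j)}

/-- `n⁻¹ ∑_{y < n} z_j ^ (Q y)`. -/
noncomputable def lin {D : ℕ} (j : Fin D) (Q n : ℕ) : TP D :=
  ∑ y ∈ range n, AddMonoidAlgebra.single (Pi.single j (Q * y)) ((n : ℂ)⁻¹)

/-- The box average over a list of coordinates. -/
noncomputable def boxL {D : ℕ} (l : List (Fin D)) (Q N : ℕ) : TP D :=
  (l.map fun j => lin j Q (N ^ ((j : ℕ) + 1))).prod

/-- The box average. -/
noncomputable def box (D Q N : ℕ) : TP D := boxL (List.finRange D) Q N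

/-- The average along the moment curve. -/
noncomputable def pav (D N : ℕ) : TP D :=
  ∑ n ∈ range N, AddMonoidAlgebra.single (fun j : Fin D => n ^ ((j : ℕ) + 1)) ((N : ℂ)⁻¹)

theorem ev_lin (j : Fin D) (Q n : ℕ) (xi : Fin D → ℝ) :
    ev (lin j Q n) xi = u n ((Q : ℝ) * xi j) := by
  unfold lin u
  rw [map_sum, Finset.sum_apply, Finset.mul_sum]
  refine Finset.sum_congr rfl fun y _ => ?_
  rw [ev_single]
  congr 2
  rw [Finset.sum_eq_single j]
  · rw [Pi.single_eq_same]
    push_cast
    ring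
  · intro i _ hi
    rw [Pi.single_eq_of_ne hi]
    simp
  · intro h
    exact absurd (Finset.mem_univ j) h

theorem gen_ofFn_prod {G : Type*} [Monoid G] : ∀ {D : ℕ} (f : Fin D → G) (j : Fin D),
    (∀ i, i ≠ j → f i = 1) → (List.ofFn f).prod = f j
  | 0, _, j, _ => j.elim0
  | D + 1, f, j, h => by
    rw [List.ofFn_succ, List.prod_cons]
    refine Fin.cases (fun h => ?_) (fun j' h => ?_) j h
    · have h1 : (List.ofFn fun i : Fin D => f i.succ).prod = 1 := by
        apply List.prod_eq_one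
        intro x hx
        obtain ⟨i, rfl⟩ := (List.mem_ofFn' _ _).1 hx
        exact h _ (Fin.succ_ne_zero i)
      rw [h1, mul_one]
    · rw [h 0 (Fin.succ_ne_zero j').symm, one_mul]
      exact gen_ofFn_prod (fun i => f i.succ) j' fun i hi =>
        h _ fun h2 => hi (Fin.succ_injective _ h2)

theorem gen_act_single (j : Fin D) (k : ℕ) : act U (Pi.single j k) = U j ^ k := by
  unfold act
  rw [gen_ofFn_prod _ j]
  · rw [Pi.single_eq_same]
  · intro i hi
    rw [Pi.single_eq_of_ne hi, pow_zero]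

theorem op_lin (j : Fin D) (Q n : ℕ) (g : X → ℂ) (x : X) :
    op U hU (lin j Q n) g x = (n : ℂ)⁻¹ * ∑ y ∈ range n, g (((U j ^ Q) ^ y) x) := by
  unfold lin
  rw [map_sum, LinearMap.sum_apply, Finset.sum_apply, Finset.mul_sum]
  refine Finset.sum_congr rfl fun y _ => ?_
  rw [op_single, gen_act_single, pow_mul]

theorem op_boxL_cons (j : Fin D) (l : List (Fin D)) (Q N : ℕ) (g : X → ℂ) :
    op U hU (boxL (j :: l) Q N) g =
      op U hU (lin j Q (N ^ ((j : ℕ) + 1))) (op U hU (boxL l Q N) g) := by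
  have h : boxL (j :: l) Q N = lin j Q (N ^ ((j : ℕ) + 1)) * boxL l Q N := by
    unfold boxL
    rw [List.map_cons, List.prod_cons]
  rw [h, map_mul]
  rfl

theorem op_boxL_nil (Q N : ℕ) (g : X → ℂ) : op U hU (boxL ([] : List (Fin D)) Q N) g = g := by
  have h : boxL ([] : List (Fin D)) Q N = 1 := by
    unfold boxL
    rw [List.map_nil, List.prod_nil]
  rw [h, map_one]
  rfl

theorem ev_box (Q N : ℕ) (xi : Fin D → ℝ) :
    ev (box D Q N) xi = ∏ j : Fin D, u (N ^ ((j : ℕ) + 1)) ((Q : ℝ) * xi j) := by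
  have h : ∀ l : List (Fin D), ev (boxL l Q N) xi =
      (l.map fun j : Fin D => u (N ^ ((j : ℕ) + 1)) ((Q : ℝ) * xi j)).prod := by
    intro l
    induction l with
    | nil =>
      have h : boxL ([] : List (Fin D)) Q N = 1 := by
        unfold boxL
        rw [List.map_nil, List.prod_nil]
      rw [h, map_one, List.map_nil, List.prod_nil]
      rfl
    | cons j l ih =>
      have h : boxL (j :: l) Q N = lin j Q (N ^ ((j : ℕ) + 1)) * boxL l Q N := by
        unfold boxL
        rw [List.map_cons, List.prod_cons]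
      rw [h, map_mul, Pi.mul_apply, ih, ev_lin, List.map_cons, List.prod_cons]
  unfold box
  rw [h, ← List.ofFn_eq_map, List.prod_ofFn]

theorem ev_pav (N : ℕ) (xi : Fin D → ℝ) : ev (pav D N) xi = m N xi := by
  unfold pav m
  rw [map_sum, Finset.sum_apply, Finset.mul_sum]
  refine Finset.sum_congr rfl fun n _ => ?_
  rw [ev_single]
  unfold ph
  congr 2
  refine Finset.sum_congr rfl fun j _ => ?_
  push_cast
  ring

theorem op_pav (N : ℕ) (f : X → ℂ) (x : X) :
    op U hU (pav D N) f x =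
      (N : ℂ)⁻¹ * ∑ n ∈ range N, f (act U (fun j : Fin D => n ^ ((j : ℕ) + 1)) x) := by
  unfold pav
  rw [map_sum, LinearMap.sum_apply, Finset.sum_apply, Finset.mul_sum]
  refine Finset.sum_congr rfl fun n _ => ?_
  rw [op_single]

/-- The function `p` of the frequency is a trigonometric polynomial. -/
def IsTP (p : (Fin D → ℝ) → ℂ) : Prop := ∃ q : TP D, ∀ xi, ev q xi = p xi

theorem isTP_const (c : ℂ) : IsTP (fun _ : Fin D → ℝ => c) := by
  refine ⟨AddMonoidAlgebra.single 0 c, fun xi => ?_⟩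
  rw [ev_single]
  simp [e_zero]

theorem IsTP.add {p p' : (Fin D → ℝ) → ℂ} (h : IsTP p) (h' : IsTP p') :
    IsTP fun xi => p xi + p' xi := by
  obtain ⟨q, hq⟩ := h
  obtain ⟨q', hq'⟩ := h'
  refine ⟨q + q', fun xi => ?_⟩
  rw [map_add, Pi.add_apply, hq, hq']

theorem IsTP.sub {p p' : (Fin D → ℝ) → ℂ} (h : IsTP p) (h' : IsTP p') :
    IsTP fun xi => p xi - p' xi := by
  obtain ⟨q, hq⟩ := h
  obtain ⟨q', hq'⟩ := h'
  refine ⟨q - q', fun xi => ?_⟩
  rw [map_sub, Pi.sub_apply, hq, hq']

theorem IsTP.mul {p p' : (Fin D → ℝ) → ℂ} (h : IsTP p) (h' : IsTP p') :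
    IsTP fun xi => p xi * p' xi := by
  obtain ⟨q, hq⟩ := h
  obtain ⟨q', hq'⟩ := h'
  refine ⟨q * q', fun xi => ?_⟩
  rw [map_mul, Pi.mul_apply, hq, hq']

theorem IsTP.pow {p : (Fin D → ℝ) → ℂ} (h : IsTP p) (n : ℕ) : IsTP fun xi => p xi ^ n := by
  obtain ⟨q, hq⟩ := h
  refine ⟨q ^ n, fun xi => ?_⟩
  rw [map_pow, Pi.pow_apply, hq]

theorem isTP_sum {ι : Type*} (s : Finset ι) (p : ι → (Fin D → ℝ) → ℂ)
    (h : ∀ i ∈ s, IsTP (p i)) : IsTP fun xi => ∑ i ∈ s, p i xi := by
  classical
  induction s using Finset.induction_on with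
  | empty => simpa using isTP_const (D := D) 0
  | insert a s ha ih =>
    have h1 := (h a (Finset.mem_insert_self _ _)).add
      (ih fun i hi => h i (Finset.mem_insert_of_mem hi))
    simpa only [Finset.sum_insert ha] using h1

theorem isTP_prod {ι : Type*} (s : Finset ι) (p : ι → (Fin D → ℝ) → ℂ)
    (h : ∀ i ∈ s, IsTP (p i)) : IsTP fun xi => ∏ i ∈ s, p i xi := by
  classical
  induction s using Finset.induction_on with
  | empty => simpa using isTP_const (D := D) 1
  | insert a s ha ih =>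
    have h1 := (h a (Finset.mem_insert_self _ _)).mul
      (ih fun i hi => h i (Finset.mem_insert_of_mem hi))
    simpa only [Finset.prod_insert ha] using h1

theorem IsTP.shift {p : (Fin D → ℝ) → ℂ} (h : IsTP p) (al : Fin D → ℝ) :
    IsTP fun xi => p fun j => xi j - al j := by
  obtain ⟨q, hq⟩ := h
  refine ⟨∑ v ∈ q.coeff.support,
    AddMonoidAlgebra.single v (q.coeff v * e (-∑ j, al j * (v j : ℝ))), fun xi => ?_⟩
  show _ = p fun j => xi j - al j
  rw [← hq, ev_apply q, map_sum, Finset.sum_apply]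
  refine Finset.sum_congr rfl fun v _ => ?_
  rw [ev_single, mul_assoc, ← e_add]
  congr 2
  rw [neg_add_eq_sub, ← Finset.sum_sub_distrib]
  refine Finset.sum_congr rfl fun j _ => ?_
  ring

theorem isTP_u (n c : ℕ) (j : Fin D) : IsTP fun xi : Fin D → ℝ => u n ((c : ℝ) * xi j) := by
  exact ⟨lin j c n, fun xi => ev_lin j c n xi⟩

theorem gen_isTP_fr (n q : ℕ) (a : Fin D → ℕ) (j : Fin D) :
    IsTP fun xi : Fin D → ℝ => u n (fr xi q a j) := by
  have h := (isTP_u n 1 j).shift fun j => (a j : ℝ) / (q : ℝ)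
  unfold fr
  simpa only [Nat.cast_one, one_mul] using h

/-- The arithmetic part of level `s`. -/
noncomputable def Ts {D : ℕ} (s : ℕ) (xi : Fin D → ℝ) : ℂ :=
  ∑ q ∈ Ico (2 ^ s) (2 ^ (s + 1)), ∑ a ∈ redF D q, G q a * ∏ j, u (Qs s) (fr xi q a j)

theorem isTP_Lam (s N : ℕ) : IsTP (fun xi : Fin D → ℝ => Lam s N xi) := by
  unfold Lam
  refine isTP_sum _ _ fun q _ => isTP_sum _ _ fun a _ => (isTP_const _).mul ?_
  unfold w
  exact isTP_prod _ _ fun j _ => (gen_isTP_fr _ q a j).pow _

theorem isTP_mdl (N : ℕ) : IsTP (fun xi : Fin D → ℝ => mdl N xi) := by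
  unfold mdl
  exact isTP_sum _ _ fun s _ => isTP_Lam s N

theorem isTP_Ts (s : ℕ) : IsTP (fun xi : Fin D → ℝ => Ts s xi) := by
  unfold Ts
  refine isTP_sum _ _ fun q _ => isTP_sum _ _ fun a _ => (isTP_const _).mul ?_
  exact isTP_prod _ _ fun j _ => gen_isTP_fr _ q a j

theorem gen_measurable_act [MeasurableSpace X] (hm : ∀ j, Measurable (U j)) (v : Fin D → ℕ) :
    Measurable (act U v) := by
  have hpow : ∀ (j : Fin D) (k : ℕ), Measurable (U j ^ k : Equiv.Perm X) := by
    intro j k
    induction k with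
    | zero =>
      rw [pow_zero]
      exact measurable_id
    | succ k ih =>
      rw [pow_succ]
      exact ih.comp (hm j)
  have hl : ∀ l : List (Equiv.Perm X), (∀ g ∈ l, Measurable g) →
      Measurable (l.prod : Equiv.Perm X) := by
    intro l
    induction l with
    | nil =>
      intro _
      rw [List.prod_nil]
      exact measurable_id
    | cons g l ih =>
      intro h
      rw [List.prod_cons]
      exact (h g List.mem_cons_self).comp (ih fun g' hg' => h g' (List.mem_cons_of_mem _ hg'))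
  unfold act
  refine hl _ fun g hg => ?_
  obtain ⟨j, rfl⟩ := (List.mem_ofFn' _ _).1 hg
  exact hpow _ _

/-- For bounded measurable `f` and measurable `U_j` the function `op U hU p f` is measurable and
bounded. -/
theorem measurable_op [MeasurableSpace X] (hm : ∀ j, Measurable (U j)) (p : TP D) {f : X → ℂ}
    (hf : Measurable f) : Measurable (op U hU p f) := by
  have h1 : op U hU p f = fun x => ∑ v ∈ p.coeff.support, p.coeff v * f (act U v x) := by
    funext x
    exact op_apply p f x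
  rw [h1]
  refine Finset.measurable_sum _ fun v _ => (hf.comp (gen_measurable_act hm v)).const_mul _

theorem op_bdd (p : TP D) {f : X → ℂ} {B : ℝ} (hf : ∀ x, ‖f x‖ ≤ B) :
    ∃ C : ℝ, ∀ x, ‖op U hU p f x‖ ≤ C := by
  refine ⟨∑ v ∈ p.coeff.support, ‖p.coeff v‖ * B, fun x => ?_⟩
  rw [op_apply]
  refine (norm_sum_le _ _).trans (Finset.sum_le_sum fun v _ => ?_)
  rw [norm_mul]
  exact mul_le_mul_of_nonneg_left (hf _) (norm_nonneg _)

end Pool.PolyConv
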