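import Pool.Agent.PolyMax.Basic

set_option autoImplicit false

/-!
# PolyConv: trigonometric polynomials and the operators given by them

`TP D` is the algebra of trigonometric polynomials with exponents in `ℕ ^ D`; `ev p` is the function
of the frequency, `op U hU p` the operator `f ↦ ∑_v p_v f (U ^ v x)` on functions on a space `X` on
which the commuting permutations `U_j` act.  Both are algebra homomorphisms.
-/

open Finset

namespace Pool.PolyConv

open Pool.PolyMax

/-- Trigonometric polynomials with nonnegative exponents. -/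
abbrev TP (D : ℕ) := AddMonoidAlgebra ℂ (Fin D → ℕ)

/-- `U ^ v`. -/
def act {X : Type*} {D : ℕ} (U : Fin D → Equiv.Perm X) (v : Fin D → ℕ) : Equiv.Perm X :=
  (List.ofFn fun j : Fin D => U j ^ v j).prod

lemma list_prod_mul {G : Type*} [Monoid G] : ∀ (l : List (G × G)),
    (∀ a ∈ l, ∀ b ∈ l, Commute a.2 b.1) →
    (l.map fun a => a.1 * a.2).prod = (l.map Prod.fst).prod * (l.map Prod.snd).prod
  | [], _ => by simp
  | a :: l, h => by
    have ih := list_prod_mul l fun b hb c hc => h b (List.mem_cons_of_mem _ hb) c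
      (List.mem_cons_of_mem _ hc)
    have hc : Commute a.2 (l.map Prod.fst).prod := by
      apply Commute.list_prod_right
      intro x hx
      obtain ⟨b, hb, rfl⟩ := List.mem_map.1 hx
      exact h a List.mem_cons_self b (List.mem_cons_of_mem _ hb)
    simp only [List.map_cons, List.prod_cons]
    rw [ih]
    calc a.1 * a.2 * ((l.map Prod.fst).prod * (l.map Prod.snd).prod)
        = a.1 * (a.2 * (l.map Prod.fst).prod) * (l.map Prod.snd).prod := by
          simp only [mul_assoc]
      _ = a.1 * ((l.map Prod.fst).prod * a.2) * (l.map Prod.snd).prod := by rw [hc.eq]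
      _ = _ := by simp only [mul_assoc]

lemma ofFn_prod_mul {G : Type*} [Monoid G] {D : ℕ} (A B : Fin D → G)
    (h : ∀ i j, Commute (B i) (A j)) :
    (List.ofFn fun j => A j * B j).prod = (List.ofFn A).prod * (List.ofFn B).prod := by
  have h1 := list_prod_mul (List.ofFn fun j => (A j, B j)) (by
    intro a ha b hb
    obtain ⟨i, rfl⟩ := List.mem_ofFn' _ _ |>.1 ha
    obtain ⟨j, rfl⟩ := List.mem_ofFn' _ _ |>.1 hb
    exact h i j)
  simpa [List.map_ofFn, Function.comp_def] using h1

lemma act_zero {X : Type*} {D : ℕ} (U : Fin D → Equiv.Perm X) : act U 0 = 1 := by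
  unfold act
  simp

lemma act_add {X : Type*} {D : ℕ} {U : Fin D → Equiv.Perm X} (hU : ∀ i j, Commute (U i) (U j))
    (v w : Fin D → ℕ) : act U (v + w) = act U v * act U w := by
  unfold act
  rw [← ofFn_prod_mul _ _ fun i j => (hU i j).pow_pow _ _]
  simp [pow_add]

/-- Evaluation at the frequency `xi`, as a multiplicative map. -/
noncomputable def evM (D : ℕ) : Multiplicative (Fin D → ℕ) →* ((Fin D → ℝ) → ℂ) where
  toFun v := fun xi => e (∑ j, xi j * (v.toAdd j : ℝ))
  map_one' := by
    funext xi
    simp [e_zero]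
  map_mul' v w := by
    funext xi
    simp only [toAdd_mul, Pi.add_apply, Nat.cast_add, mul_add, Finset.sum_add_distrib, e_add,
      Pi.mul_apply]

/-- The function of the frequency given by a trigonometric polynomial. -/
noncomputable def ev {D : ℕ} : TP D →ₐ[ℂ] ((Fin D → ℝ) → ℂ) :=
  AddMonoidAlgebra.lift ℂ _ _ (evM D)

/-- The composition operators. -/
def opM {X : Type*} {D : ℕ} (U : Fin D → Equiv.Perm X) (hU : ∀ i j, Commute (U i) (U j)) :
    Multiplicative (Fin D → ℕ) →* Module.End ℂ (X → ℂ) where
  toFun v := LinearMap.funLeft ℂ ℂ (act U v.toAdd)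
  map_one' := by
    ext f x
    simp [act_zero]
  map_mul' v w := by
    ext f x
    have : v * w = w * v := mul_comm _ _
    rw [this]
    simp only [toAdd_mul, act_add hU]
    rfl

/-- The operator on functions on `X` given by a trigonometric polynomial. -/
noncomputable def op {X : Type*} {D : ℕ} (U : Fin D → Equiv.Perm X)
    (hU : ∀ i j, Commute (U i) (U j)) : TP D →ₐ[ℂ] Module.End ℂ (X → ℂ) :=
  AddMonoidAlgebra.lift ℂ _ _ (opM U hU)

variable {X : Type*} {D : ℕ} {U : Fin D → Equiv.Perm X} {hU : ∀ i j, Commute (U i) (U j)}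

lemma ev_apply (p : TP D) (xi : Fin D → ℝ) :
    ev p xi = ∑ v ∈ p.coeff.support, p.coeff v * e (∑ j, xi j * (v j : ℝ)) := by
  unfold ev
  rw [AddMonoidAlgebra.lift_apply, Finsupp.sum, Finset.sum_apply]
  rfl

lemma op_apply (p : TP D) (f : X → ℂ) (x : X) :
    op U hU p f x = ∑ v ∈ p.coeff.support, p.coeff v * f (act U v x) := by
  unfold op
  rw [AddMonoidAlgebra.lift_apply, Finsupp.sum, LinearMap.sum_apply, Finset.sum_apply]
  rfl

lemma ev_single (v : Fin D → ℕ) (c : ℂ) (xi : Fin D → ℝ) :
    ev (AddMonoidAlgebra.single v c : TP D) xi = c * e (∑ j, xi j * (v j : ℝ)) := by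
  unfold ev
  rw [AddMonoidAlgebra.lift_single]
  rfl

lemma op_single (v : Fin D → ℕ) (c : ℂ) (f : X → ℂ) (x : X) :
    op U hU (AddMonoidAlgebra.single v c : TP D) f x = c * f (act U v x) := by
  unfold op
  rw [AddMonoidAlgebra.lift_single]
  rfl

end Pool.PolyConv
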