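import Pool.Agent.PolyConv.Gen
import Pool.Agent.PolyMax.MaxBdBasic

set_option autoImplicit false

/-!
# PolyConv: Calderon transference for operators given by trigonometric polynomials

PROOF of `T_ev`: both sides are linear in `p` (`T_add`, `T_const_mul` of `PolyMax.DFT`, or `ev_apply`
and `T_sum`); for a single exponent this is `T_shift`.

PROOF of `tr_max`.  By monotone convergence (`lintegral_iSup`, or the sup over `k < K`) it is enough to
bound, for every `K`, the integral of `max_{k < K} ‖op U hU (p k) f x‖²`.  Let `S` be larger than all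
coordinates `v j` of all exponents `v` in the supports of `p k`, `k < K`, `S ≥ 1`, and `M = 2 S`.  For
`x : X` put `F_x y = f (act U (fun j => (y j).val) x)`, `y : Fin D → ZMod M`.  If all
`(y j).val < S` then for all `v` in the supports `(y j + v j).val = (y j).val + v j`, so by `act_add`
`T (ev (p k)) F_x y = ∑_v p_v F_x (y + v) = op U hU (p k) f (act U (fun j => (y j).val) x)`
(use `act U (y.val + v) = act U v * act U y.val`).
Let `ka y` be an index `k < K` where `‖T (ev (p k)) F_x y‖` is maximal.  `MaxBd` gives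
`∑_{y : all (y j).val < S} max_{k < K} ‖op U hU (p k) f (act U y.val x)‖²
 ≤ nrm (fun y => T (ev (p (ka y))) F_x y) ^ 2 ≤ C² ∑_y ‖f (act U y.val x)‖²`.
Integrate over `x` and use that the maps `act U y.val` preserve `mu`
(`MeasurePreserving.lintegral_comp`): `S^D ∫ max_{k < K} ‖op (p k) f‖² ≤ C² M^D ∫ ‖f‖²`.

PROOF of `tr_sq`: the same with `PolyMax.sum_nrm_T_le` in place of `MaxBd`:
`∑_{k < K} ∑_{y good} ‖op U hU (p k) f (act U y.val x)‖² ≤ C ∑_y ‖f (act U y.val x)‖²`.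

PROOF of `tr_zero`: `∫ ∑_k ‖op (p k) f‖² < ∞` (`lintegral_tsum`), so for a.e. `x` the series
`∑_k ‖op (p k) f x‖²` is finite and its terms tend to `0`.
-/

open Finset MeasureTheory Filter Topology
open scoped ENNReal NNReal

namespace Pool.PolyConv

open Pool.PolyMax

theorem T_ev {D M : ℕ} [NeZero M] (p : TP D) (f : (Fin D → ZMod M) → ℂ) (x : Fin D → ZMod M) :
    T (ev p) f x = ∑ v ∈ p.coeff.support, p.coeff v * f (fun j => x j + (v j : ZMod M)) := by
  have h1 : (ev p : (Fin D → ℝ) → ℂ) =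
      fun xi => ∑ v ∈ p.coeff.support, p.coeff v * e (∑ j, xi j * (v j : ℝ)) := by
    funext xi
    exact ev_apply p xi
  rw [h1, T_sum p.coeff.support (fun v xi => p.coeff v * e (∑ j, xi j * (v j : ℝ))) f x]
  refine Finset.sum_congr rfl fun v _ => ?_
  rw [T_const_mul, T_shift]

variable {X : Type*} [MeasurableSpace X] {D : ℕ}

lemma trAux_list {X : Type*} [MeasurableSpace X] {mu : Measure X} :
    ∀ l : List (Equiv.Perm X), (∀ g ∈ l, MeasurePreserving g mu mu) →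
      MeasurePreserving (l.prod : Equiv.Perm X) mu mu
  | [], _ => by
    simpa using MeasurePreserving.id mu
  | g :: l, h => by
    rw [List.prod_cons, Equiv.Perm.coe_mul]
    exact (h g List.mem_cons_self).comp
      (trAux_list l fun g' hg' => h g' (List.mem_cons_of_mem _ hg'))

theorem measurePreserving_act {mu : Measure X} {U : Fin D → Equiv.Perm X}
    (hmp : ∀ j, MeasurePreserving (U j) mu mu) (v : Fin D → ℕ) :
    MeasurePreserving (act U v) mu mu := by
  unfold act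
  refine trAux_list _ fun g hg => ?_
  obtain ⟨j, rfl⟩ := List.mem_ofFn' _ _ |>.1 hg
  rw [← Equiv.Perm.iterate_eq_pow]
  exact (hmp j).iterate _

lemma trAux_meas {mu : Measure X} {U : Fin D → Equiv.Perm X} (hU : ∀ i j, Commute (U i) (U j))
    (hmp : ∀ j, MeasurePreserving (U j) mu mu) (p : TP D) {f : X → ℂ} (hf : Measurable f) :
    Measurable (op U hU p f) := by
  have h : (op U hU p f : X → ℂ) = fun x => ∑ v ∈ p.coeff.support, p.coeff v * f (act U v x) := by
    funext x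
    exact op_apply p f x
  rw [h]
  refine Finset.measurable_sum _ fun v _ => ?_
  exact (hf.comp (measurePreserving_act hmp v).measurable).const_mul _

lemma trAux_sup (g : ℕ → X → ℝ≥0∞) (hg : ∀ k, Measurable (g k)) (K : ℕ) :
    Measurable fun x => (Finset.range K).sup fun k => g k x := by
  simp only [Finset.sup_eq_iSup]
  exact Measurable.biSup (↑(Finset.range K) : Set ℕ) (Finset.countable_toSet _) fun k _ => hg k

/-- The embedding of a box in the finite group. -/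
def trEmb (D S : ℕ) (z : Fin D → Fin S) : Fin D → ZMod (2 * S) := fun j => ((z j : ℕ) : ZMod (2 * S))

lemma trAux_val {S : ℕ} (z : Fin D → Fin S) (j : Fin D) :
    (trEmb D S z j).val = (z j : ℕ) := by
  have h := (z j).isLt
  exact ZMod.val_natCast_of_lt (by omega)

lemma trAux_inj (D S : ℕ) : Function.Injective (trEmb D S) := by
  intro z w h
  funext j
  apply Fin.ext
  rw [← trAux_val z j, ← trAux_val w j, h]

omit [MeasurableSpace X] in
lemma trAux_core {S : ℕ} [NeZero (2 * S)] {U : Fin D → Equiv.Perm X}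
    (hU : ∀ i j, Commute (U i) (U j)) (p : TP D)
    (hp : ∀ v ∈ p.coeff.support, ∀ j, v j < S) (f : X → ℂ) (x : X) (z : Fin D → Fin S) :
    T (ev p) (fun y : Fin D → ZMod (2 * S) => f (act U (fun j => (y j).val) x)) (trEmb D S z) =
      op U hU p f (act U (fun j => (z j : ℕ)) x) := by
  rw [T_ev, op_apply]
  refine Finset.sum_congr rfl fun v hv => ?_
  have h1 : (fun j => (trEmb D S z j + (v j : ZMod (2 * S))).val) = v + fun j => (z j : ℕ) := by
    funext j
    have h2 := (z j).isLt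
    have h3 := hp v hv j
    have h4 : ((v j : ℕ) : ZMod (2 * S)).val = v j := ZMod.val_natCast_of_lt (by omega)
    rw [ZMod.val_add_of_lt (by rw [trAux_val, h4]; omega), trAux_val, h4, Pi.add_apply]
    ring
  rw [h1, act_add hU, Equiv.Perm.mul_apply]

lemma trAux_sum (D S : ℕ) [NeZero (2 * S)] (g : (Fin D → ZMod (2 * S)) → ℝ≥0∞) :
    ∑ z : Fin D → Fin S, g (trEmb D S z) ≤ ∑ y, g y := by
  have h := Finset.sum_map Finset.univ ⟨trEmb D S, trAux_inj D S⟩ g
  exact h.symm.le.trans (Finset.sum_le_sum_of_subset (Finset.subset_univ _))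

lemma trAux_enorm (z : ℂ) : ‖z‖ₑ ^ 2 = ENNReal.ofReal (‖z‖ ^ 2) := by
  rw [ENNReal.ofReal_pow (norm_nonneg _), ofReal_norm]

lemma trAux_nrm {A : Type*} [Fintype A] (f : A → ℂ) :
    ∑ y, ‖f y‖ₑ ^ 2 = ENNReal.ofReal (nrm f ^ 2) := by
  rw [nrm_sq, ENNReal.ofReal_sum_of_nonneg fun y _ => by positivity]
  exact Finset.sum_congr rfl fun y _ => trAux_enorm _

/-- A common bound of the exponents. -/
lemma trAux_bound (p : ℕ → TP D) (K : ℕ) :
    ∃ S : ℕ, 1 ≤ S ∧ ∀ k < K, ∀ v ∈ (p k).coeff.support, ∀ j, v j < S := by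
  refine ⟨((Finset.range K).sup fun k => (p k).coeff.support.sup fun v => Finset.univ.sup v) + 1,
    by omega, fun k hk v hv j => ?_⟩
  have h1 : v j ≤ Finset.univ.sup v := Finset.le_sup (Finset.mem_univ j)
  have h2 : (Finset.univ.sup v : ℕ) ≤ (p k).coeff.support.sup fun v => Finset.univ.sup v :=
    Finset.le_sup (f := fun v : Fin D → ℕ => Finset.univ.sup v) hv
  have h3 : ((p k).coeff.support.sup fun v => Finset.univ.sup v : ℕ) ≤
      (Finset.range K).sup fun k => (p k).coeff.support.sup fun v => Finset.univ.sup v :=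
    Finset.le_sup (f := fun k => (p k).coeff.support.sup fun v : Fin D → ℕ => Finset.univ.sup v)
      (Finset.mem_range.2 hk)
  omega

/-- Averaging over the box. -/
lemma trAux_avg {mu : Measure X} {U : Fin D → Equiv.Perm X}
    (hmp : ∀ j, MeasurePreserving (U j) mu mu) {S : ℕ} (hS : 1 ≤ S) [NeZero (2 * S)]
    (g h : X → ℝ≥0∞) (hg : Measurable g) (hh : Measurable h) (c : ℝ≥0∞)
    (hx : ∀ x, ∑ z : Fin D → Fin S, g (act U (fun j => (z j : ℕ)) x) ≤
      c * ∑ y : Fin D → ZMod (2 * S), h (act U (fun j => (y j).val) x)) :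
    ∫⁻ x, g x ∂mu ≤ 2 ^ D * c * ∫⁻ x, h x ∂mu := by
  have hmg : ∀ v : Fin D → ℕ, Measurable fun x => g (act U v x) :=
    fun v => hg.comp (measurePreserving_act hmp v).measurable
  have hmh : ∀ v : Fin D → ℕ, Measurable fun x => h (act U v x) :=
    fun v => hh.comp (measurePreserving_act hmp v).measurable
  have h1 : ∫⁻ x, ∑ z : Fin D → Fin S, g (act U (fun j => (z j : ℕ)) x) ∂mu =
      (S : ℝ≥0∞) ^ D * ∫⁻ x, g x ∂mu := by
    rw [lintegral_finsetSum _ fun z _ => hmg _]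
    have h2 : ∀ z : Fin D → Fin S, ∫⁻ x, g (act U (fun j => (z j : ℕ)) x) ∂mu = ∫⁻ x, g x ∂mu :=
      fun z => (measurePreserving_act hmp _).lintegral_comp hg
    simp only [h2, Finset.sum_const, Finset.card_univ, Fintype.card_pi, Fintype.card_fin,
      Finset.prod_const, nsmul_eq_mul, Nat.cast_pow]
  have h3 : ∫⁻ x, c * ∑ y : Fin D → ZMod (2 * S), h (act U (fun j => (y j).val) x) ∂mu =
      c * (((2 * S : ℕ) : ℝ≥0∞) ^ D * ∫⁻ x, h x ∂mu) := by
    rw [lintegral_const_mul _ (Finset.measurable_sum _ fun y _ => hmh _),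
      lintegral_finsetSum _ fun y _ => hmh _]
    have h2 : ∀ y : Fin D → ZMod (2 * S),
        ∫⁻ x, h (act U (fun j => (y j).val) x) ∂mu = ∫⁻ x, h x ∂mu :=
      fun y => (measurePreserving_act hmp _).lintegral_comp hh
    simp only [h2, Finset.sum_const, Finset.card_univ, Fintype.card_pi, ZMod.card,
      Finset.prod_const, nsmul_eq_mul, Nat.cast_pow, Fintype.card_fin]
  have h4 := lintegral_mono (μ := mu) hx
  rw [h1, h3] at h4
  have hS0 : ((S : ℝ≥0∞) ^ D) ≠ 0 := pow_ne_zero _ (by exact_mod_cast (by omega : S ≠ 0))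
  have hS1 : ((S : ℝ≥0∞) ^ D) ≠ ∞ := ENNReal.pow_ne_top (ENNReal.natCast_ne_top S)
  rw [← ENNReal.mul_le_mul_iff_right hS0 hS1]
  refine h4.trans (le_of_eq ?_)
  push_cast
  rw [mul_pow]
  ring

theorem tr_max (p : ℕ → TP D) (C : ℝ) (hC : 0 ≤ C) (hp : MaxBd (fun k => ev (p k)) C)
    (mu : Measure X) (U : Fin D → Equiv.Perm X) (hU : ∀ i j, Commute (U i) (U j))
    (hmp : ∀ j, MeasurePreserving (U j) mu mu) (f : X → ℂ) (hf : Measurable f) :
    ∫⁻ x, (⨆ k : ℕ, ‖op U hU (p k) f x‖ₑ) ^ 2 ∂mu ≤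
      2 ^ D * ENNReal.ofReal (C ^ 2) * ∫⁻ x, ‖f x‖ₑ ^ 2 ∂mu := by
  have hmeas : ∀ k, Measurable fun x => ‖op U hU (p k) f x‖ₑ := fun k =>
    (trAux_meas hU hmp (p k) hf).enorm
  have hkey : ∀ K : ℕ, ∫⁻ x, ((Finset.range K).sup fun k => ‖op U hU (p k) f x‖ₑ) ^ 2 ∂mu ≤
      2 ^ D * ENNReal.ofReal (C ^ 2) * ∫⁻ x, ‖f x‖ₑ ^ 2 ∂mu := by
    intro K
    rcases Nat.eq_zero_or_pos K with hK | hK
    · subst hK
      simp
    obtain ⟨S, hS1, hS⟩ := trAux_bound p K
    have : NeZero (2 * S) := ⟨by omega⟩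
    have hm1 : Measurable fun x => ((Finset.range K).sup fun k => ‖op U hU (p k) f x‖ₑ) ^ 2 := by
      refine Measurable.pow_const ?_ 2
      exact trAux_sup _ hmeas K
    refine trAux_avg hmp hS1 (fun x => ((Finset.range K).sup fun k => ‖op U hU (p k) f x‖ₑ) ^ 2)
      (fun x => ‖f x‖ₑ ^ 2) hm1 (hf.enorm.pow_const 2) _ fun x => ?_
    set F : (Fin D → ZMod (2 * S)) → ℂ := fun y => f (act U (fun j => (y j).val) x) with hF
    have hex : ∀ y : Fin D → ZMod (2 * S), ∃ k ∈ Finset.range K,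
        (Finset.range K).sup (fun k => ‖T (ev (p k)) F y‖ₑ) = ‖T (ev (p k)) F y‖ₑ := fun y =>
      Finset.exists_mem_eq_sup _ ⟨0, Finset.mem_range.2 hK⟩ _
    choose ka hka1 hka2 using hex
    calc ∑ z : Fin D → Fin S,
          ((Finset.range K).sup fun k => ‖op U hU (p k) f (act U (fun j => (z j : ℕ)) x)‖ₑ) ^ 2
        = ∑ z : Fin D → Fin S,
          ((Finset.range K).sup fun k => ‖T (ev (p k)) F (trEmb D S z)‖ₑ) ^ 2 := by
          refine Finset.sum_congr rfl fun z _ => ?_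
          congr 1
          refine Finset.sup_congr rfl fun k hk => ?_
          rw [hF, trAux_core hU (p k) (hS k (Finset.mem_range.1 hk)) f x z]
      _ ≤ ∑ y : Fin D → ZMod (2 * S),
          ((Finset.range K).sup fun k => ‖T (ev (p k)) F y‖ₑ) ^ 2 :=
          trAux_sum D S fun y => ((Finset.range K).sup fun k => ‖T (ev (p k)) F y‖ₑ) ^ 2
      _ = ∑ y : Fin D → ZMod (2 * S), ‖T (ev (p (ka y))) F y‖ₑ ^ 2 :=
          Finset.sum_congr rfl fun y _ => by rw [hka2 y]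
      _ = ENNReal.ofReal (nrm (fun y => T (ev (p (ka y))) F y) ^ 2) :=
          trAux_nrm fun y => T (ev (p (ka y))) F y
      _ ≤ ENNReal.ofReal ((C * nrm F) ^ 2) := by
          refine ENNReal.ofReal_le_ofReal (pow_le_pow_left₀ (nrm_nonneg _) ?_ 2)
          exact hp (2 * S) F ka
      _ = ENNReal.ofReal (C ^ 2) * ∑ y : Fin D → ZMod (2 * S), ‖F y‖ₑ ^ 2 := by
          rw [trAux_nrm, mul_pow, ENNReal.ofReal_mul (by positivity)]
  have hsup : ∀ x, (⨆ k : ℕ, ‖op U hU (p k) f x‖ₑ) ^ 2 =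
      ⨆ K : ℕ, ((Finset.range K).sup fun k => ‖op U hU (p k) f x‖ₑ) ^ 2 := by
    intro x
    rw [← ENNReal.iSup_pow]
    congr 1
    refine le_antisymm (iSup_le fun k => ?_) (iSup_le fun K => Finset.sup_le fun k _ => ?_)
    · exact le_iSup_of_le (k + 1) (Finset.le_sup (f := fun k => ‖op U hU (p k) f x‖ₑ)
        (Finset.mem_range.2 (Nat.lt_succ_self k)))
    · exact le_iSup (fun k => ‖op U hU (p k) f x‖ₑ) k
  simp only [hsup]
  rw [lintegral_iSup]
  · exact iSup_le hkey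
  · intro K
    refine Measurable.pow_const ?_ 2
    exact trAux_sup _ hmeas K
  · intro K K' hKK x
    exact pow_le_pow_left' (Finset.sup_mono (Finset.range_mono hKK)) 2

theorem tr_sq (p : ℕ → TP D) (C : ℝ) (hC : 0 ≤ C)
    (hp : ∀ (xi : Fin D → ℝ) (K : ℕ), ∑ k ∈ range K, ‖ev (p k) xi‖ ^ 2 ≤ C)
    (mu : Measure X) (U : Fin D → Equiv.Perm X) (hU : ∀ i j, Commute (U i) (U j))
    (hmp : ∀ j, MeasurePreserving (U j) mu mu) (f : X → ℂ) (hf : Measurable f) (K : ℕ) :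
    ∑ k ∈ range K, ∫⁻ x, ‖op U hU (p k) f x‖ₑ ^ 2 ∂mu ≤
      2 ^ D * ENNReal.ofReal C * ∫⁻ x, ‖f x‖ₑ ^ 2 ∂mu := by
  obtain ⟨S, hS1, hS⟩ := trAux_bound p K
  have : NeZero (2 * S) := ⟨by omega⟩
  have hmeas : ∀ k, Measurable fun x => ‖op U hU (p k) f x‖ₑ ^ 2 := fun k =>
    (trAux_meas hU hmp (p k) hf).enorm.pow_const 2
  rw [← lintegral_finsetSum _ fun k _ => hmeas k]
  refine trAux_avg hmp hS1 (fun x => ∑ k ∈ range K, ‖op U hU (p k) f x‖ₑ ^ 2)
    (fun x => ‖f x‖ₑ ^ 2) (Finset.measurable_sum _ fun k _ => hmeas k) (hf.enorm.pow_const 2) _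
    fun x => ?_
  set F : (Fin D → ZMod (2 * S)) → ℂ := fun y => f (act U (fun j => (y j).val) x) with hF
  calc ∑ z : Fin D → Fin S,
        ∑ k ∈ range K, ‖op U hU (p k) f (act U (fun j => (z j : ℕ)) x)‖ₑ ^ 2
      = ∑ z : Fin D → Fin S, ∑ k ∈ range K, ‖T (ev (p k)) F (trEmb D S z)‖ₑ ^ 2 := by
        refine Finset.sum_congr rfl fun z _ => Finset.sum_congr rfl fun k hk => ?_
        rw [hF, trAux_core hU (p k) (hS k (Finset.mem_range.1 hk)) f x z]
    _ ≤ ∑ y : Fin D → ZMod (2 * S), ∑ k ∈ range K, ‖T (ev (p k)) F y‖ₑ ^ 2 :=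
        trAux_sum D S fun y => ∑ k ∈ range K, ‖T (ev (p k)) F y‖ₑ ^ 2
    _ = ENNReal.ofReal (∑ k ∈ range K, nrm (T (ev (p k)) F) ^ 2) := by
        rw [Finset.sum_comm, ENNReal.ofReal_sum_of_nonneg fun k _ => by positivity]
        exact Finset.sum_congr rfl fun k _ => trAux_nrm _
    _ ≤ ENNReal.ofReal (C * nrm F ^ 2) := by
        refine ENNReal.ofReal_le_ofReal ?_
        exact sum_nrm_T_le (range K) (fun k => ev (p k)) C (fun xi => hp xi K) F
    _ = ENNReal.ofReal C * ∑ y : Fin D → ZMod (2 * S), ‖F y‖ₑ ^ 2 := by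
        rw [trAux_nrm, ENNReal.ofReal_mul hC]

theorem tr_zero (p : ℕ → TP D) (C : ℝ) (hC : 0 ≤ C)
    (hp : ∀ (xi : Fin D → ℝ) (K : ℕ), ∑ k ∈ range K, ‖ev (p k) xi‖ ^ 2 ≤ C)
    (mu : Measure X) (U : Fin D → Equiv.Perm X) (hU : ∀ i j, Commute (U i) (U j))
    (hmp : ∀ j, MeasurePreserving (U j) mu mu) (f : X → ℂ) (hf : Measurable f)
    (hf2 : ∫⁻ x, ‖f x‖ₑ ^ 2 ∂mu ≠ ∞) :
    ∀ᵐ x ∂mu, Tendsto (fun k => op U hU (p k) f x) atTop (𝓝 0) := by
  have hmeas : ∀ k, Measurable fun x => ‖op U hU (p k) f x‖ₑ ^ 2 := fun k =>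
    (trAux_meas hU hmp (p k) hf).enorm.pow_const 2
  have h1 : ∑' k, ∫⁻ x, ‖op U hU (p k) f x‖ₑ ^ 2 ∂mu ≤
      2 ^ D * ENNReal.ofReal C * ∫⁻ x, ‖f x‖ₑ ^ 2 ∂mu :=
    ENNReal.tsum_le_of_sum_range_le fun K => tr_sq p C hC hp mu U hU hmp f hf K
  rw [← lintegral_tsum fun k => (hmeas k).aemeasurable] at h1
  have h2 : ∫⁻ x, ∑' k, ‖op U hU (p k) f x‖ₑ ^ 2 ∂mu ≠ ∞ := by
    refine ne_top_of_le_ne_top ?_ h1
    exact ENNReal.mul_ne_top (ENNReal.mul_ne_top (ENNReal.pow_ne_top ENNReal.ofNat_ne_top)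
      ENNReal.ofReal_ne_top) hf2
  have h3 := ae_lt_top (Measurable.tsum fun k => hmeas k) h2
  filter_upwards [h3] with x hx
  have h4 := ENNReal.tendsto_atTop_zero_of_tsum_ne_top hx.ne
  rw [tendsto_zero_iff_enorm_tendsto_zero]
  rw [ENNReal.tendsto_atTop_zero] at h4 ⊢
  intro ε hε
  obtain ⟨N, hN⟩ := h4 (ε ^ 2) (ENNReal.pow_pos hε 2)
  refine ⟨N, fun n hn => ?_⟩
  exact (ENNReal.pow_right_strictMono two_ne_zero).le_iff_le.1 (hN n hn)

end Pool.PolyConv
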